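import Mathlib
import Pool.Agent.ARB.SecA
import Pool.Agent.ARB.JetT

/-!
# ALT, induction block: jets with integral slopes, and the two types of tangles
-/

set_option autoImplicit false

namespace Pool.Agent.ALT

open Pool.Agent.ARB

/-- a jet with integral `p`, `q` -/
structure NT where
  x : ℤ × ℤ
  J : Jet
  hp : J.p = x.1
  hq : J.q = x.2

namespace NT

theorem ext' {A B : NT} (hx : A.x = B.x) (hJ : A.J = B.J) : A = B := by
  cases A; cases B
  simp only at hx hJ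
  subst hx
  subst hJ
  rfl

/-- sum -/
def sum (A B : NT) : NT where
  x := (A.x.1 * B.x.2 + A.x.2 * B.x.1, A.x.2 * B.x.2)
  J := A.J.sum B.J
  hp := by
    show A.J.p * B.J.q + A.J.q * B.J.p = _
    rw [A.hp, A.hq, B.hp, B.hq]
    push_cast
    rfl
  hq := by
    show A.J.q * B.J.q = _
    rw [A.hq, B.hq]
    push_cast
    rfl

/-- rotation -/
def rot (A : NT) : NT where
  x := (A.x.2, -A.x.1)
  J := A.J.rot
  hp := A.hq
  hq := by
    show -A.J.p = _
    rw [A.hp]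
    push_cast
    rfl

/-- arborescent tangles -/
def of (R : Arb) : NT where
  x := R.pq
  J := R.jet
  hp := (jet_pq R).1
  hq := (jet_pq R).2

theorem sum_assoc (A B C : NT) : (A.sum B).sum C = A.sum (B.sum C) := by
  refine ext' ?_ (Jet.sum_assoc _ _ _)
  simp only [sum]
  ext <;> simp only <;> ring

theorem sum_comm (A B : NT) : A.sum B = B.sum A := by
  refine ext' ?_ (Jet.sum_comm _ _)
  simp only [sum]
  ext <;> simp only <;> ring

theorem of_sum (A B : Arb) : of (.sum A B) = (of A).sum (of B) := ext' rfl rfl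

theorem of_rot (A : Arb) : of (.rot A) = (of A).rot := ext' rfl rfl

theorem E_rot (A B : NT) : (A.rot.sum B).J.E = (A.sum B.rot).J.E := Jet.E_rot _ _

/-- the two tangles close up to determinant one -/
def D1 (A B : NT) : Prop := (A.sum B).x.1.natAbs = 1

theorem D1.comm {A B : NT} (h : D1 A B) : D1 B A := by
  unfold D1 at h ⊢
  rw [sum_comm]
  exact h

theorem D1.rot {A B : NT} (h : D1 A.rot B) : D1 A B.rot := by
  unfold D1 at h ⊢
  rw [← h]
  simp only [sum, NT.rot]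
  congr 1
  ring

theorem D1.assoc {A B C : NT} (h : D1 (A.sum B) C) : D1 A (B.sum C) := by
  unfold D1 at h ⊢
  rw [← sum_assoc]
  exact h

/-- coprime -/
def Cop (A : NT) : Prop := IsCoprime A.x.1 A.x.2

theorem D1.cop {A B : NT} (h : D1 A B) : Cop A ∧ Cop B := by
  unfold D1 at h
  simp only [sum] at h
  rcases Int.natAbs_eq (A.x.1 * B.x.2 + A.x.2 * B.x.1) with h1 | h1 <;> rw [h] at h1
  · exact ⟨⟨B.x.2, B.x.1, by push_cast at h1; linarith⟩,
      ⟨A.x.2, A.x.1, by push_cast at h1; linarith⟩⟩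
  · exact ⟨⟨-B.x.2, -B.x.1, by push_cast at h1; linarith⟩,
      ⟨-A.x.2, -A.x.1, by push_cast at h1; linarith⟩⟩

theorem Cop.sum {A B : NT} (h : Cop (A.sum B)) :
    Cop A ∧ Cop B ∧ IsCoprime A.x.2 B.x.2 := by
  obtain ⟨u, v, huv⟩ := h
  simp only [NT.sum] at huv
  exact ⟨⟨u * B.x.2, u * B.x.1 + v * B.x.2, by linear_combination huv⟩,
    ⟨u * A.x.2, u * A.x.1 + v * A.x.2, by linear_combination huv⟩,
    ⟨u * B.x.1 + v * B.x.2, u * A.x.1, by linear_combination huv⟩⟩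

theorem Cop.rot {A : NT} (h : Cop A.rot) : Cop A := by
  obtain ⟨u, v, huv⟩ := h
  simp only [NT.rot] at huv
  exact ⟨-v, u, by linear_combination huv⟩

theorem Cop.zero {A : NT} (h : Cop A) (h0 : A.x.2 = 0) : A.x.1.natAbs = 1 := by
  unfold Cop at h
  rw [h0] at h
  exact Int.isUnit_iff_natAbs_eq.mp (isCoprime_zero_right.mp h)

/-- same slope -/
def SS (A B : NT) : Prop := (A.x.1 = B.x.1 ∧ A.x.2 = B.x.2) ∨ (A.x.1 = -B.x.1 ∧ A.x.2 = -B.x.2)

theorem SS.refl (A : NT) : SS A A := Or.inl ⟨rfl, rfl⟩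

theorem SS.symm {A B : NT} (h : SS A B) : SS B A := by
  rcases h with ⟨h1, h2⟩ | ⟨h1, h2⟩
  · exact Or.inl ⟨h1.symm, h2.symm⟩
  · exact Or.inr ⟨by rw [h1]; ring, by rw [h2]; ring⟩

theorem SS.trans {A B C : NT} (h : SS A B) (h' : SS B C) : SS A C := by
  rcases h with ⟨h1, h2⟩ | ⟨h1, h2⟩ <;> rcases h' with ⟨h3, h4⟩ | ⟨h3, h4⟩
  · exact Or.inl ⟨h1.trans h3, h2.trans h4⟩
  · exact Or.inr ⟨h1.trans h3, h2.trans h4⟩
  · exact Or.inr ⟨by rw [h1, h3], by rw [h2, h4]⟩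
  · exact Or.inl ⟨by rw [h1, h3, neg_neg], by rw [h2, h4, neg_neg]⟩

theorem SS.sumL {A B : NT} (h : SS A B) (C : NT) : SS (A.sum C) (B.sum C) := by
  rcases h with ⟨h1, h2⟩ | ⟨h1, h2⟩
  · refine Or.inl ⟨?_, ?_⟩ <;> simp only [NT.sum, h1, h2]
  · refine Or.inr ⟨?_, ?_⟩ <;> simp only [NT.sum, h1, h2] <;> ring

theorem SS.sumR {A B : NT} (h : SS A B) (C : NT) : SS (C.sum A) (C.sum B) := by
  rw [sum_comm C A, sum_comm C B]
  exact h.sumL C

theorem SS.rot {A B : NT} (h : SS A B) : SS A.rot B.rot := by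
  rcases h with ⟨h1, h2⟩ | ⟨h1, h2⟩
  · refine Or.inl ⟨?_, ?_⟩ <;> simp only [NT.rot, h1, h2]
  · refine Or.inr ⟨?_, ?_⟩ <;> simp only [NT.rot, h1, h2]

theorem SS.p {A B : NT} (h : SS A B) : A.x.1.natAbs = B.x.1.natAbs := by
  rcases h with ⟨h1, _⟩ | ⟨h1, _⟩
  · rw [h1]
  · rw [h1, Int.natAbs_neg]

theorem SS.q {A B : NT} (h : SS A B) : A.x.2.natAbs = B.x.2.natAbs := by
  rcases h with ⟨_, h1⟩ | ⟨_, h1⟩
  · rw [h1]
  · rw [h1, Int.natAbs_neg]

theorem SS.q0 {A B : NT} (h : SS A B) : A.x.2 = 0 ↔ B.x.2 = 0 := by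
  rcases h with ⟨_, h1⟩ | ⟨_, h1⟩
  · rw [h1]
  · rw [h1, neg_eq_zero]

theorem SS.jet {A B : NT} (h : SS A B) : (A.J.p = B.J.p ∧ A.J.q = B.J.q) ∨
    (A.J.p = -B.J.p ∧ A.J.q = -B.J.q) := by
  rw [A.hp, A.hq, B.hp, B.hq]
  rcases h with ⟨h1, h2⟩ | ⟨h1, h2⟩
  · exact Or.inl ⟨by rw [h1], by rw [h2]⟩
  · exact Or.inr ⟨by rw [h1]; push_cast; rfl, by rw [h2]; push_cast; rfl⟩

theorem SS.arb {A B : Arb} (h : SS (of A) (of B)) : SameSlope A B := h

/-- a rational tangle of the given slope -/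
theorem ratEx (A : NT) (h : Cop A) : ∃ R : Arb, Rat R ∧ SS A (of R) := by
  obtain ⟨R, hR, h1⟩ := rat_ex_pq _ A.x.1 A.x.2 le_rfl h
  refine ⟨R, hR, ?_⟩
  rcases h1 with ⟨h2, h3⟩ | ⟨h2, h3⟩
  · exact Or.inl ⟨h2.symm, h3.symm⟩
  · exact Or.inr ⟨by show _ = -R.pq.1; rw [h2]; ring, by show _ = -R.pq.2; rw [h3]; ring⟩

/-- the splice formula -/
theorem splice {A B : NT} {A' B' : Arb} (hA : Rat A') (hB : Rat B') (sA : SS A (of A'))
    (sB : SS B (of B')) (h : D1 A B) :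
    (A.sum B).J.E = (A.sum (of B')).J.E + ((of A').sum B).J.E -
      1 / 2 * (A.J.Om + 1) * (B.J.Om + 1) := by
  have h1 := Jet.splice A.J B.J A'.jet B'.jet (rat_om A' hA).2 (rat_om B' hB).2 sA.jet sB.jet
  have h2 : (Arb.sum A' B').jet.E = 0 := by
    refine two_rat' A' B' hA hB ?_
    rw [← h]
    exact ((sA.sumL B).trans (sB.sumR (of A'))).symm.p
  have h3 : (A'.jet.sum B'.jet).E = 0 := h2
  rw [h3] at h1
  show (A.J.sum B.J).E = (A.J.sum B'.jet).E + (A'.jet.sum B.J).E - _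
  rw [h1]
  ring

/-! ### `Om` of a sum -/

theorem sq_ge {z : ℤ} (hz : z ≠ 0) : (1 : ℚ) ≤ (z : ℚ) ^ 2 := by
  have h1 : 0 < z ^ 2 := by positivity
  have h2 : (1 : ℤ) ≤ z ^ 2 := h1
  exact_mod_cast h2

theorem sq_one {z : ℤ} (hz : z.natAbs = 1) : (z : ℚ) ^ 2 = 1 := by
  have h1 : z ^ 2 = 1 := by
    rw [← Int.natAbs_sq, hz]
    norm_num
  exact_mod_cast h1

theorem om_sum (A B : NT) : (A.sum B).J.Om + 1 = (A.J.Om + 1) * (B.x.2 : ℚ) ^ 2 +
    (B.J.Om + 1) * (A.x.2 : ℚ) ^ 2 + ((A.x.2 : ℚ) ^ 2 - 1) * ((B.x.2 : ℚ) ^ 2 - 1) := by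
  show (A.J.sum B.J).Om + 1 = _
  rw [Jet.Om_sum, A.hq, B.hq]
  ring

/-- a summand of slope infinity -/
theorem om_zero {A B : NT} (h : Cop (A.sum B)) (h0 : A.x.2 = 0) :
    B.x.2.natAbs = 1 ∧ (A.sum B).J.Om = A.J.Om := by
  have h1 := h.sum.2.2
  rw [h0] at h1
  have h2 : B.x.2.natAbs = 1 := Int.isUnit_iff_natAbs_eq.mp (isCoprime_zero_left.mp h1)
  refine ⟨h2, ?_⟩
  have h3 := om_sum A B
  rw [h0, sq_one h2] at h3
  norm_num at h3
  exact h3

theorem om_ge {A B : NT} (h : Cop (A.sum B)) (hA : -1 ≤ A.J.Om) (hB : -1 ≤ B.J.Om) :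
    -1 ≤ (A.sum B).J.Om := by
  by_cases h0 : A.x.2 = 0
  · rw [(om_zero h h0).2]
    exact hA
  by_cases h1 : B.x.2 = 0
  · rw [sum_comm] at h ⊢
    rw [(om_zero h h1).2]
    exact hB
  have h2 := om_sum A B
  have h3 := sq_ge h0
  have h4 := sq_ge h1
  have h5 : 0 ≤ (A.J.Om + 1) * (B.x.2 : ℚ) ^ 2 := mul_nonneg (by linarith) (by linarith)
  have h6 : 0 ≤ (B.J.Om + 1) * (A.x.2 : ℚ) ^ 2 := mul_nonneg (by linarith) (by linarith)
  have h7 : 0 ≤ ((A.x.2 : ℚ) ^ 2 - 1) * ((B.x.2 : ℚ) ^ 2 - 1) :=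
    mul_nonneg (by linarith) (by linarith)
  linarith

theorem om_of {R : Arb} (hR : Rat R) : (of R).J.Om = -1 := (rat_om R hR).2

/-! ### the two types -/

/-- type I: like an arborescent tangle -/
structure TyI (A : NT) : Prop where
  E : ∀ R : Arb, Rat R → D1 A (of R) → (A.sum (of R)).J.E ≤ 0
  om : A.J.Om = -1 ∨ 23 ≤ A.J.Om

/-- type II: contains an alternating leaf -/
structure TyII (A : NT) : Prop where
  E : ∀ R : Arb, Rat R → D1 A (of R) → (A.sum (of R)).J.E < 12 * (A.J.Om + 1)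
  om : 47 ≤ A.J.Om

/-- one of the two types -/
def Ty (A : NT) : Prop := TyI A ∨ TyII A

theorem Ty.ge {A : NT} (h : Ty A) : -1 ≤ A.J.Om := by
  rcases h with h | h
  · rcases h.om with h1 | h1 <;> linarith
  · linarith [h.om]

theorem Ty.pos {A : NT} (h : Ty A) (h1 : A.J.Om ≠ -1) : 23 ≤ A.J.Om := by
  rcases h with h | h
  · exact h.om.resolve_left h1
  · linarith [h.om]

/-- a bound which holds for both types -/
theorem Ty.E {A : NT} (h : Ty A) {R : Arb} (hR : Rat R) (hD : D1 A (of R)) :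
    (A.sum (of R)).J.E ≤ 12 * (A.J.Om + 1) := by
  rcases h with h | h
  · have h1 := h.E R hR hD
    have h2 := (show Ty A from Or.inl h).ge
    linarith
  · exact (h.E R hR hD).le

theorem tyI_rat {R : Arb} (hR : Rat R) : TyI (of R) where
  E := fun S hS h => (two_rat' R S hR hS h).le
  om := Or.inl (om_of hR)

/-- two tangles which are both not rational -/
theorem both {A B : NT} (hD : D1 A B) (tA : Ty A) (tB : Ty B) (hA : A.J.Om ≠ -1)
    (hB : B.J.Om ≠ -1) : (A.sum B).J.E < 0 := by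
  obtain ⟨cA, cB⟩ := hD.cop
  obtain ⟨A', rA, sA⟩ := ratEx A cA
  obtain ⟨B', rB, sB⟩ := ratEx B cB
  have h1 := splice rA rB sA sB hD
  have dA : D1 A (of B') := by
    unfold D1 at hD ⊢
    rw [← hD]
    exact (sB.sumR A).symm.p
  have dB : D1 B (of A') := by
    unfold D1 at hD ⊢
    rw [sum_comm, ← hD]
    exact (sA.sumL B).symm.p
  have hA23 := tA.pos hA
  have hB23 := tB.pos hB
  rw [sum_comm (of A') B] at h1
  rcases tA with tA | tA <;> rcases tB with tB | tB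
  · have e1 := tA.E B' rB dA
    have e2 := tB.E A' rA dB
    nlinarith
  · have e1 := tA.E B' rB dA
    have e2 := tB.E A' rA dB
    nlinarith
  · have e1 := tA.E B' rB dA
    have e2 := tB.E A' rA dB
    nlinarith
  · have e1 := tA.E B' rB dA
    have e2 := tB.E A' rA dB
    have e3 := tA.om
    have e4 := tB.om
    nlinarith

/-- the decomposition of `(A + B) + R` -/
structure Dec (A B : NT) (R A' B' Ch Ch' : Arb) : Prop where
  rA : Rat A'
  rB : Rat B'
  rC : Rat Ch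
  rD : Rat Ch'
  sA : SS A (of A')
  sB : SS B (of B')
  sC : SS (B.sum (of R)) (of Ch)
  sD : SS ((of R).sum (of A')) (of Ch')
  pA : D1 A (of Ch)
  pB : D1 B (of Ch')
  pC : D1 A (B.sum (of R))
  pD : D1 B ((of R).sum (of A'))
  p3 : D1 ((of A').sum (of B')) (of R)
  eq : ((A.sum B).sum (of R)).J.E = (A.sum (of Ch)).J.E + (B.sum (of Ch')).J.E +
    (((of A').sum (of B')).sum (of R)).J.E -
      1 / 2 * (A.J.Om + 1) * ((B.sum (of R)).J.Om + 1) -
      1 / 2 * (B.J.Om + 1) * (((of R).sum (of A')).J.Om + 1)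

theorem exDec (A B : NT) (R : Arb) (h : D1 (A.sum B) (of R)) :
    ∃ A' B' Ch Ch' : Arb, Dec A B R A' B' Ch Ch' := by
  have pC : D1 A (B.sum (of R)) := h.assoc
  obtain ⟨A', rA, sA⟩ := ratEx A pC.cop.1
  obtain ⟨Ch, rC, sC⟩ := ratEx _ pC.cop.2
  have e4 : (of A').sum (B.sum (of R)) = B.sum ((of R).sum (of A')) := by
    rw [sum_comm, sum_assoc]
  have pD : D1 B ((of R).sum (of A')) := by
    unfold D1 at pC ⊢
    rw [← e4, ← pC]
    exact (sA.sumL _).symm.p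
  obtain ⟨B', rB, sB⟩ := ratEx B pD.cop.1
  obtain ⟨Ch', rD, sD⟩ := ratEx _ pD.cop.2
  have pA : D1 A (of Ch) := by
    unfold D1 at pC ⊢
    rw [← pC]
    exact (sC.sumR A).symm.p
  have pB : D1 B (of Ch') := by
    unfold D1 at pD ⊢
    rw [← pD]
    exact (sD.sumR B).symm.p
  have p3 : D1 ((of A').sum (of B')) (of R) := by
    unfold D1 at h ⊢
    rw [← h]
    exact (((sA.sumL B).trans (sB.sumR (of A'))).sumL (of R)).symm.p
  refine ⟨A', B', Ch, Ch', rA, rB, rC, rD, sA, sB, sC, sD, pA, pB, pC, pD, p3, ?_⟩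
  have e1 := splice rA rC sA sC pC
  have e2 := splice rB rD sB sD pD
  have e5 : (of B').sum ((of R).sum (of A')) = ((of A').sum (of B')).sum (of R) := by
    rw [sum_comm, sum_assoc, sum_comm, sum_assoc]
  rw [sum_assoc, e1, e4, e2, e5]
  ring

/-- three rational tangles -/
theorem three_le' {A B C : Arb} (hA : Rat A) (hB : Rat B) (hC : Rat C)
    (h : D1 ((of A).sum (of B)) (of C)) : (((of A).sum (of B)).sum (of C)).J.E ≤ 0 :=
  (three_le three hA hB hC h).1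

/-- the type of a sum, one summand of slope infinity -/
private theorem ty_sum_zero {A B : NT} (h : Cop (A.sum B)) (tA : Ty A) (tB : Ty B)
    (h0 : A.x.2 = 0) (nA : A.J.Om ≠ -1) : Ty (A.sum B) := by
  obtain ⟨hq, hO⟩ := om_zero h h0
  have hA23 := tA.pos nA
  have key : ∀ R : Arb, Rat R → D1 (A.sum B) (of R) → ∃ Ch Ch' : Arb, Rat Ch ∧ Rat Ch' ∧
      D1 A (of Ch) ∧ D1 B (of Ch') ∧ ((A.sum B).sum (of R)).J.E ≤ (A.sum (of Ch)).J.E +
        (B.sum (of Ch')).J.E - 1 / 2 * (A.J.Om + 1) * (B.J.Om + 1) := by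
    intro R hR hD
    obtain ⟨A', B', Ch, Ch', D⟩ := exDec A B R hD
    refine ⟨Ch, Ch', D.rC, D.rD, D.pA, D.pB, ?_⟩
    rw [D.eq]
    have t3 := three_le' D.rA D.rB hR D.p3
    -- `Om (B + R) = Om B`
    have hqR : (of R).x.2.natAbs = 1 := by
      have h1 := D.pC
      unfold D1 at h1
      simp only [NT.sum] at h1
      rw [h0, zero_mul, add_zero, Int.natAbs_mul, Int.natAbs_mul] at h1
      have h2 := Nat.eq_one_of_mul_eq_one_left h1
      exact Nat.eq_one_of_mul_eq_one_left h2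
    have hC : (B.sum (of R)).J.Om = B.J.Om := by
      have h1 := om_sum B (of R)
      rw [sq_one hqR, om_of hR, sq_one hq] at h1
      linarith
    rw [hC]
    have o2 := tB.ge
    have o4 : -1 ≤ ((of R).sum (of A')).J.Om :=
      om_ge D.pD.cop.2 (om_of hR).ge (om_of D.rA).ge
    have m2 : 0 ≤ (B.J.Om + 1) * (((of R).sum (of A')).J.Om + 1) :=
      mul_nonneg (by linarith) (by linarith)
    linarith
  have hBb : ∀ R : Arb, Rat R → D1 B (of R) →
      (B.sum (of R)).J.E - 1 / 2 * (A.J.Om + 1) * (B.J.Om + 1) ≤ 0 := by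
    intro R hR hD
    have h1 := tB.E hR hD
    have h2 := tB.ge
    nlinarith
  rcases tA with tA | tA
  · left
    refine ⟨fun R hR hD => ?_, ?_⟩
    · obtain ⟨Ch, Ch', r1, r2, d1, d2, h3⟩ := key R hR hD
      have h4 := tA.E Ch r1 d1
      have h5 := hBb Ch' r2 d2
      linarith
    · rw [hO]
      exact Or.inr hA23
  · right
    refine ⟨fun R hR hD => ?_, ?_⟩
    · obtain ⟨Ch, Ch', r1, r2, d1, d2, h3⟩ := key R hR hD
      have h4 := tA.E Ch r1 d1
      have h5 := hBb Ch' r2 d2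
      rw [hO]
      linarith
    · rw [hO]
      exact tA.om

/-- the type of a sum -/
theorem ty_sum {A B : NT} (h : Cop (A.sum B)) (tA : Ty A) (tB : Ty B)
    (nA : ¬ (A.x.2 = 0 ∧ A.J.Om = -1)) (nB : ¬ (B.x.2 = 0 ∧ B.J.Om = -1)) : Ty (A.sum B) := by
  by_cases h0 : A.x.2 = 0
  · exact ty_sum_zero h tA tB h0 (fun h1 => nA ⟨h0, h1⟩)
  by_cases h1 : B.x.2 = 0
  · rw [sum_comm] at h ⊢
    exact ty_sum_zero h tB tA h1 (fun h2 => nB ⟨h1, h2⟩)
  have hO := om_sum A B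
  have a1 := sq_ge h0
  have b1 := sq_ge h1
  have oA := tA.ge
  have oB := tB.ge
  have p1 : A.J.Om + 1 ≤ (A.J.Om + 1) * (B.x.2 : ℚ) ^ 2 := by nlinarith
  have p2 : B.J.Om + 1 ≤ (B.J.Om + 1) * (A.x.2 : ℚ) ^ 2 := by nlinarith
  have p3 : 0 ≤ ((A.x.2 : ℚ) ^ 2 - 1) * ((B.x.2 : ℚ) ^ 2 - 1) :=
    mul_nonneg (by linarith) (by linarith)
  have hge : A.J.Om + 1 + (B.J.Om + 1) ≤ (A.sum B).J.Om + 1 := by linarith
  have key : ∀ R : Arb, Rat R → D1 (A.sum B) (of R) → ∃ Ch Ch' : Arb, Rat Ch ∧ Rat Ch' ∧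
      D1 A (of Ch) ∧ D1 B (of Ch') ∧ ((A.sum B).sum (of R)).J.E ≤ (A.sum (of Ch)).J.E +
        (B.sum (of Ch')).J.E := by
    intro R hR hD
    obtain ⟨A', B', Ch, Ch', D⟩ := exDec A B R hD
    refine ⟨Ch, Ch', D.rC, D.rD, D.pA, D.pB, ?_⟩
    rw [D.eq]
    have t3 := three_le' D.rA D.rB hR D.p3
    have o2 : -1 ≤ (B.sum (of R)).J.Om := om_ge D.pC.cop.2 oB (om_of hR).ge
    have o4 : -1 ≤ ((of R).sum (of A')).J.Om :=
      om_ge D.pD.cop.2 (om_of hR).ge (om_of D.rA).ge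
    have m1 : 0 ≤ (A.J.Om + 1) * ((B.sum (of R)).J.Om + 1) :=
      mul_nonneg (by linarith) (by linarith)
    have m2 : 0 ≤ (B.J.Om + 1) * (((of R).sum (of A')).J.Om + 1) :=
      mul_nonneg (by linarith) (by linarith)
    linarith
  rcases tA with tA | tA <;> rcases tB with tB | tB
  · left
    refine ⟨fun R hR hD => ?_, ?_⟩
    · obtain ⟨Ch, Ch', r1, r2, d1, d2, h3⟩ := key R hR hD
      linarith [tA.E Ch r1 d1, tB.E Ch' r2 d2]
    · rcases tA.om with hA | hA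
      · rcases tB.om with hB | hB
        · rw [hA, hB] at hO
          by_cases q1 : A.x.2.natAbs = 1
          · left
            rw [sq_one q1] at hO
            linarith
          by_cases q2 : B.x.2.natAbs = 1
          · left
            rw [sq_one q2] at hO
            linarith
          right
          have hc := h.sum.2.2
          have hne : A.x.2.natAbs ≠ B.x.2.natAbs := by
            intro he
            have hc' : Nat.Coprime A.x.2.natAbs B.x.2.natAbs := Int.isCoprime_iff_gcd_eq_one.mp hc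
            rw [he, Nat.coprime_self] at hc'
            exact q2 hc'
          have n1 : A.x.2.natAbs ≠ 0 := Int.natAbs_ne_zero.mpr h0
          have n2 : B.x.2.natAbs ≠ 0 := Int.natAbs_ne_zero.mpr h1
          have sqn : ∀ (z : ℤ) (m : ℕ), m ≤ z.natAbs → ((m : ℚ)) ^ 2 ≤ (z : ℚ) ^ 2 := by
            intro z m hm
            have e1 : ((z.natAbs : ℕ) : ℚ) ^ 2 = (z : ℚ) ^ 2 := by
              rw [Nat.cast_natAbs, Int.cast_abs, sq_abs]
            rw [← e1]
            have : (m : ℚ) ≤ (z.natAbs : ℚ) := by exact_mod_cast hm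
            exact pow_le_pow_left₀ (by positivity) this 2
          rcases lt_or_gt_of_ne hne with hl | hl
          · have c1 := sqn A.x.2 2 (by omega)
            have c2 := sqn B.x.2 3 (by omega)
            push_cast at c1 c2
            nlinarith
          · have c1 := sqn A.x.2 3 (by omega)
            have c2 := sqn B.x.2 2 (by omega)
            push_cast at c1 c2
            nlinarith
        · right
          linarith
      · right
        linarith
  · right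
    refine ⟨fun R hR hD => ?_, by linarith [tB.om]⟩
    obtain ⟨Ch, Ch', r1, r2, d1, d2, h3⟩ := key R hR hD
    linarith [tA.E Ch r1 d1, tB.E Ch' r2 d2]
  · right
    refine ⟨fun R hR hD => ?_, by linarith [tA.om]⟩
    obtain ⟨Ch, Ch', r1, r2, d1, d2, h3⟩ := key R hR hD
    linarith [tA.E Ch r1 d1, tB.E Ch' r2 d2]
  · right
    refine ⟨fun R hR hD => ?_, by linarith [tA.om]⟩
    obtain ⟨Ch, Ch', r1, r2, d1, d2, h3⟩ := key R hR hD
    linarith [tA.E Ch r1 d1, tB.E Ch' r2 d2]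

theorem ty_rot {A : NT} (tA : Ty A) : Ty A.rot := by
  have hO : A.rot.J.Om = A.J.Om := Jet.Om_rot _
  rcases tA with tA | tA
  · left
    refine ⟨fun R hR hD => ?_, by rw [hO]; exact tA.om⟩
    rw [E_rot]
    exact tA.E (.rot R) (Rat.rot _ hR) hD.rot
  · right
    refine ⟨fun R hR hD => ?_, by rw [hO]; exact tA.om⟩
    rw [E_rot, hO]
    exact tA.E (.rot R) (Rat.rot _ hR) hD.rot

end NT

end Pool.Agent.ALT
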