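import Mathlib
import Pool.Agent.ARB.Bridge

/-!
# ALT, induction block: bracket pairs and 2-jets
-/

set_option autoImplicit false

namespace Pool.Agent.ALT

open Pool.Agent.ARB LaurentPolynomial PowerSeries

/-- The pair `pr` (in the ring `ℤ[A, A⁻¹]`) has the 2-jet `J`. -/
def PJ (pr : LaurentPolynomial ℤ × LaurentPolynomial ℤ) (J : Jet) : Prop :=
  ∀ P : EvPt, ∃ k g0 g1 g2 b0 b1 b2 : ℂ, k ^ 8 = 1 ∧
    coeff 0 (P.ev pr.1) = -Complex.I * k * g0 ∧ coeff 1 (P.ev pr.1) = -Complex.I * k * g1 ∧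
    coeff 2 (P.ev pr.1) = -Complex.I * k * g2 ∧
    coeff 0 (P.ev pr.2) = k * b0 ∧ coeff 1 (P.ev pr.2) = k * b1 ∧
    coeff 2 (P.ev pr.2) = k * b2 ∧
    (J.p : ℂ) = g0 ∧ (J.q : ℂ) = b0 ∧ (J.w : ℂ) = g1 * b0 - g0 * b1 ∧
    (J.G : ℂ) = -(2 * g0 * g2 - g1 ^ 2) ∧ (J.F : ℂ) = -(g2 * b0 - g1 * b1 + g0 * b2) ∧
    (J.H : ℂ) = -(2 * b0 * b2 - b1 ^ 2)

theorem PJ.arb (S : Arb) : PJ S.pair S.jet := fun P => pair_jet P S

theorem PJ.sum {x y : LaurentPolynomial ℤ × LaurentPolynomial ℤ} {J K : Jet} (hx : PJ x J)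
    (hy : PJ y K) :
    PJ (x.1 * y.2 + x.2 * y.1 + Pool.Agent.Helper2.loopVal * (x.1 * y.1), x.2 * y.2) (J.sum K) := by
  intro P
  have hI := Complex.I_sq
  obtain ⟨k, g0, g1, g2, b0, b1, b2, hk, hg0, hg1, hg2, hb0, hb1, hb2, hp, hq, hw, hG, hF,
    hH⟩ := hx P
  obtain ⟨k', g0', g1', g2', b0', b1', b2', hk', hg0', hg1', hg2', hb0', hb1', hb2', hp', hq',
    hw', hG', hF', hH'⟩ := hy P
  refine ⟨k * k', g0 * b0' + b0 * g0', g1 * b0' + g0 * b1' + b1 * g0' + b0 * g1' + g0 * g0',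
    g2 * b0' + g1 * b1' + g0 * b2' + b2 * g0' + b1 * g1' + b0 * g2' + g1 * g0' + g0 * g1',
    b0 * b0', b0 * b1' + b1 * b0', b0 * b2' + b1 * b1' + b2 * b0', ?_, ?_, ?_, ?_, ?_, ?_, ?_,
    ?_, ?_, ?_, ?_, ?_, ?_⟩
  · rw [mul_pow, hk, hk', one_mul]
  · simp only [map_add, map_mul, bc0, bc1, bc2, hg0, hg1, hg2, hb0, hb1, hb2, hg0',
      hg1', hg2', hb0', hb1', hb2', P.l0, P.l1, P.l2]
    ring
  · simp only [map_add, map_mul, bc0, bc1, bc2, hg0, hg1, hg2, hb0, hb1, hb2, hg0',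
      hg1', hg2', hb0', hb1', hb2', P.l0, P.l1, P.l2]
    linear_combination Complex.I * k * k' * g0 * g0' * hI
  · simp only [map_add, map_mul, bc0, bc1, bc2, hg0, hg1, hg2, hb0, hb1, hb2, hg0',
      hg1', hg2', hb0', hb1', hb2', P.l0, P.l1, P.l2]
    linear_combination Complex.I * k * k' * (g1 * g0' + g0 * g1') * hI
  · simp only [map_mul, bc0, bc1, bc2, hg0, hg1, hg2, hb0, hb1, hb2, hg0',
      hg1', hg2', hb0', hb1', hb2', P.l0, P.l1, P.l2]
    ring
  · simp only [map_mul, bc0, bc1, bc2, hg0, hg1, hg2, hb0, hb1, hb2, hg0',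
      hg1', hg2', hb0', hb1', hb2', P.l0, P.l1, P.l2]
    ring
  · simp only [map_mul, bc0, bc1, bc2, hg0, hg1, hg2, hb0, hb1, hb2, hg0',
      hg1', hg2', hb0', hb1', hb2', P.l0, P.l1, P.l2]
    ring
  · simp only [Jet.sum, Jet.Q]
    push_cast
    rw [hp, hq, hp', hq']
  · simp only [Jet.sum, Jet.Q]
    push_cast
    rw [hq, hq']
  · simp only [Jet.sum, Jet.Q]
    push_cast
    rw [hp, hq, hw, hp', hq', hw']
    ring
  · simp only [Jet.sum, Jet.Q]
    push_cast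
    rw [hp, hq, hw, hG, hF, hH, hp', hq', hw', hG', hF', hH']
    ring
  · simp only [Jet.sum, Jet.Q]
    push_cast
    rw [hp, hq, hw, hF, hH, hp', hq', hw', hF', hH']
    ring
  · simp only [Jet.sum, Jet.Q]
    push_cast
    rw [hq, hH, hq', hH']
    ring

theorem PJ.rot {x : LaurentPolynomial ℤ × LaurentPolynomial ℤ} {J : Jet} (hx : PJ x J) :
    PJ (x.2, x.1) J.rot := by
  intro P
  have hI := Complex.I_sq
  obtain ⟨k, g0, g1, g2, b0, b1, b2, hk, hg0, hg1, hg2, hb0, hb1, hb2, hp, hq, hw, hG, hF,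
    hH⟩ := hx P
  refine ⟨Complex.I * k, b0, b1, b2, -g0, -g1, -g2, ?_, ?_, ?_, ?_, ?_, ?_, ?_, ?_, ?_, ?_,
    ?_, ?_, ?_⟩
  · rw [mul_pow, hk]
    have : Complex.I ^ 8 = (Complex.I ^ 2) ^ 4 := by ring
    rw [this, hI]; norm_num
  · simp only [hb0]
    linear_combination k * b0 * hI
  · simp only [hb1]
    linear_combination k * b1 * hI
  · simp only [hb2]
    linear_combination k * b2 * hI
  · simp only [hg0]
    ring
  · simp only [hg1]
    ring
  · simp only [hg2]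
    ring
  · simp only [Jet.rot]
    exact hq
  · simp only [Jet.rot]
    push_cast
    rw [hp]
  · simp only [Jet.rot]
    rw [hw]
    ring
  · simp only [Jet.rot]
    rw [hH]
  · simp only [Jet.rot]
    push_cast
    rw [hF]
    ring
  · simp only [Jet.rot]
    rw [hG]
    ring

/-- If the bracket of the numerator closure is a unit then `p = ± 1` and `E = 0`. -/
theorem PJ.unit {x : LaurentPolynomial ℤ × LaurentPolynomial ℤ} {J : Jet} (hx : PJ x J)
    (h : IsU (x.1 + Pool.Agent.Helper2.loopVal * x.2)) :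
    (J.p = 1 ∨ J.p = -1) ∧ J.E = 0 := by
  obtain ⟨P⟩ := exEvPt
  have key : ∀ (e : ℤ) (n : ℤ), (e = 1 ∨ e = -1) →
      x.1 + Pool.Agent.Helper2.loopVal * x.2 = LaurentPolynomial.C e * T n →
      (J.p = 1 ∨ J.p = -1) ∧ J.E = 0 := by
    intro e n he h
    have c0 : coeff 0 (P.ev (x.1 + Pool.Agent.Helper2.loopVal * x.2)) =
      coeff 0 (P.ev (LaurentPolynomial.C e * T n)) := by rw [h]
    have c1 : coeff 1 (P.ev (x.1 + Pool.Agent.Helper2.loopVal * x.2)) =
      coeff 1 (P.ev (LaurentPolynomial.C e * T n)) := by rw [h]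
    have c2 : coeff 2 (P.ev (x.1 + Pool.Agent.Helper2.loopVal * x.2)) =
      coeff 2 (P.ev (LaurentPolynomial.C e * T n)) := by rw [h]
    obtain ⟨k, g0, g1, g2, b0, b1, b2, hk, hg0, hg1, hg2, hb0, hb1, hb2, hp, hq, hw, hG, hF,
      hH⟩ := hx P
    obtain ⟨h8, hh⟩ := zpow_jet P n
    have hI := Complex.I_sq
    have hk0 : k ≠ 0 := by
      rintro rfl
      norm_num at hk
    have hC : P.ev (LaurentPolynomial.C e) = ((e : ℤ) : PowerSeries ℂ) := by
      simp [EvPt.ev]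
    rw [map_add, map_mul, map_mul, P.ev_T, hC] at c0 c1 c2
    set m := ((P.a ^ n : (PowerSeries ℂ)ˣ) : PowerSeries ℂ) with hm
    have hee : ((e : ℤ) : ℂ) ^ 2 = 1 := by
      rcases he with h | h <;> rw [h] <;> norm_num
    have hce : ∀ i : ℕ, coeff i (((e : ℤ) : PowerSeries ℂ) * m) = (e : ℂ) * coeff i m := by
      intro i
      have : ((e : ℤ) : PowerSeries ℂ) = PowerSeries.C (e : ℂ) := by simp
      rw [this, PowerSeries.coeff_C_mul]
    rw [map_add, bc0, P.l0, hg0, hb0, hce] at c0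
    rw [map_add, bc1, P.l0, P.l1, hg1, hb0, hb1, hce] at c1
    rw [map_add, bc2, P.l0, P.l1, P.l2, hg2, hb0, hb1, hb2, hce] at c2
    constructor
    · have h1 : g0 ^ 8 = 1 := by
        have : (-Complex.I * k * g0 + 0 * (k * b0)) ^ 8 = (((e : ℤ) : ℂ) * coeff 0 m) ^ 8 := by
          rw [c0]
        have e8 : ((e : ℤ) : ℂ) ^ 8 = 1 := by
          have : ((e : ℤ) : ℂ) ^ 8 = (((e : ℤ) : ℂ) ^ 2) ^ 4 := by ring
          rw [this, hee]; norm_num
        have i8 : Complex.I ^ 8 = 1 := by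
          have : Complex.I ^ 8 = (Complex.I ^ 2) ^ 4 := by ring
          rw [this, hI]; norm_num
        have t1 : (-Complex.I * k * g0 + 0 * (k * b0)) ^ 8 = Complex.I ^ 8 * k ^ 8 * g0 ^ 8 := by
          ring
        rw [t1, i8, hk, mul_pow, e8, h8] at this
        simpa using this
      rw [← hp] at h1
      have h2 : J.p ^ 8 = 1 := by exact_mod_cast h1
      have h3 : J.p ^ 2 = 1 := by
        have : (J.p ^ 2) ^ 4 = 1 := by rw [← pow_mul]; exact h2
        exact (pow_eq_one_iff_of_nonneg (sq_nonneg _) (by norm_num)).1 this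
      have h4 : (J.p - 1) * (J.p + 1) = 0 := by linear_combination h3
      rcases mul_eq_zero.1 h4 with h | h
      · left; linear_combination h
      · right; linear_combination h
    · have key : k ^ 2 * (2 * (g1 * b0 - g0 * b1) - b0 ^ 2 + (2 * g0 * g2 - g1 ^ 2)) = 0 := by
        linear_combination (-2 * ((-Complex.I * k * g2 + Complex.I * k * b1))) * c0 +
          ((-Complex.I * k * g1 + Complex.I * k * b0) + e * coeff 1 m) * c1 -
          2 * e * coeff 0 m * c2 - (e : ℂ) ^ 2 * hh +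
          k ^ 2 * (2 * (g1 * b0 - g0 * b1) - b0 ^ 2 + (2 * g0 * g2 - g1 ^ 2)) * hI
      have : ((J.E : ℚ) : ℂ) = 0 := by
        rw [Jet.E]
        push_cast
        rw [hw, hq, hG]
        have hk2 : k ^ 2 ≠ 0 := pow_ne_zero 2 hk0
        rcases mul_eq_zero.1 key with h | h
        · exact absurd h hk2
        · linear_combination h
      exact_mod_cast this
  obtain ⟨n, h | h⟩ := h
  · exact key 1 n (Or.inl rfl) (by rw [h]; simp)
  · exact key (-1) n (Or.inr rfl) (by rw [h]; simp)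

end Pool.Agent.ALT
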