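import Mathlib
import Pool.Agent.ARB.Fin
import Pool.Agent.ALT.Ind.PJ
import Pool.Agent.ALT.Ind.NT

/-!
# ALT, induction block: arborescent combinations of leaves
-/

set_option autoImplicit false

namespace Pool.Agent.ALT

open Pool.Agent.ARB LaurentPolynomial Pool.Agent.Helper2

/-- `g`, `b` are the coefficients of the tangle `w` in the basis (cap followed by cup,
identity) -/
def HasPair (w : Word) (g b : LP) : Prop :=
  ∀ (V : Type) [AddCommGroup V] [Module LP V] (M : Model LP V), Good M →
    ∀ (j n : ℕ) (x : V), j + 2 ≤ n → M.Supp n x →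
      runW M (sh j w) x = b • x + g • M.cup j (M.cap j x)

/-- the 2-jet of the pair -/
def HasJet (g b : LP) (J : Jet) : Prop := PJ (g, b) J

/-- a leaf with its invariants -/
structure Lf where
  word : Word
  g : LP
  b : LP
  x : ℤ × ℤ
  J : Jet
  ok : Ok word 2 2
  run : HasPair word g b
  jet : HasJet g b J
  hp : J.p = x.1
  hq : J.q = x.2
  om : IsCoprime x.1 x.2 → 47 ≤ J.Om
  E : IsCoprime x.1 x.2 → ∀ R : Arb, Rat R → (J.sum R.jet).p ^ 2 = 1 →
    (J.sum R.jet).E < 12 * (J.Om + 1)

/-- Combinations of leaves: obtained from crossings and leaves by sums and rotations. -/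
inductive Alt where
  | zero
  | cross (p : Bool)
  | leaf (L : Lf)
  | sum (S T : Alt)
  | rot (T : Alt)

namespace Alt

/-- the diagram -/
def word : Alt → Word
  | .zero => []
  | .cross p => [pX 0 p]
  | .leaf L => L.word
  | .sum S T => S.word ++ T.word
  | .rot T => rotW T.word

/-- slope and jet -/
def nt : Alt → NT
  | .zero => NT.of .zero
  | .cross p => NT.of (.cross p)
  | .leaf L => ⟨L.x, L.J, L.hp, L.hq⟩
  | .sum S T => S.nt.sum T.nt
  | .rot T => T.nt.rot

/-- the bracket pair -/
noncomputable def pair : Alt → LP × LP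
  | .zero => (0, 1)
  | .cross p => (T (if p then -1 else 1), T (if p then 1 else -1))
  | .leaf L => (L.g, L.b)
  | .sum S R => (S.pair.1 * R.pair.2 + S.pair.2 * R.pair.1 + loopVal * (S.pair.1 * R.pair.1),
      S.pair.2 * R.pair.2)
  | .rot S => (S.pair.2, S.pair.1)

/-- `L` is a leaf of the tangle -/
def Has (L : Lf) : Alt → Prop
  | .zero => False
  | .cross _ => False
  | .leaf L' => L = L'
  | .sum S T => S.Has L ∨ T.Has L
  | .rot T => T.Has L

/-- arborescent tangles -/
def of : Arb → Alt
  | .zero => .zero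
  | .cross p => .cross p
  | .sum S T => .sum (of S) (of T)
  | .rot T => .rot (of T)

theorem of_word (R : Arb) : (of R).word = R.word := by
  induction R with
  | zero => rfl
  | cross p => rfl
  | sum S T hS hT => simp only [of, word, Arb.word, hS, hT]
  | rot T hT => simp only [of, word, Arb.word, hT]

theorem of_nt (R : Arb) : (of R).nt = NT.of R := by
  induction R with
  | zero => rfl
  | cross p => rfl
  | sum S T hS hT => simp only [of, nt, hS, hT, NT.of_sum]
  | rot T hT => simp only [of, nt, hT, NT.of_rot]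

theorem of_pair (R : Arb) : (of R).pair = R.pair := by
  induction R with
  | zero => rfl
  | cross p => rfl
  | sum S T hS hT => simp only [of, pair, Arb.pair, hS, hT]
  | rot T hT => simp only [of, pair, Arb.pair, hT]

theorem okA : ∀ T : Alt, Ok T.word 2 2
  | .zero => rfl
  | .cross _ => ⟨by show 0 + 2 ≤ 2; omega, rfl⟩
  | .leaf L => L.ok
  | .sum S T => (okA S).append (okA T)
  | .rot T => by
    have h := okA T
    have h1 : Ok (sh 1 T.word ++ [pN 0]) 4 2 := by
      have h2 := (h.sh 1).add 1
      exact h2.append ⟨by decide, rfl⟩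
    exact ⟨by decide, h1⟩

/-- the operator of a combination -/
theorem run (R : Alt) : HasPair R.word R.pair.1 R.pair.2 := by
  intro V _ _ M hM
  induction R with
  | zero =>
    intro j n x hj hx
    show x = (1 : LP) • x + (0 : LP) • M.cup j (M.cap j x)
    rw [one_smul, zero_smul, add_zero]
  | cross p =>
    intro j n x hj hx
    show opP M (pX (0 + j) p) x = _
    rw [pairRun_X, Nat.zero_add]
    rfl
  | leaf L => exact L.run V M hM
  | sum S R hS hR =>
    intro j n x hj hx
    have hx' : M.Supp (n - 2 + 2) x := by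
      rw [show n - 2 + 2 = n by omega]
      exact hx
    have hc : M.Supp (n - 2) (M.cap j x) := M.supp_cap _ _ _ (by omega) hx'
    have he : M.Supp n (M.cup j (M.cap j x)) := by
      have h := M.supp_cup _ j _ (by omega) hc
      rw [show n - 2 + 2 = n by omega] at h
      exact h
    show runW M (sh j (S.word ++ R.word)) x = _
    rw [sh_append, pairRun_append, hS j n x hj hx, map_add, map_smul, map_smul,
      hR j n x hj hx, hR j n _ hj he]
    have h1 : M.cap j (M.cup j (M.cap j x)) = loopVal • M.cap j x := by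
      rw [← hM.del]
      exact M.rel1 _ _ _ hc (by omega)
    rw [h1, map_smul]
    show _ = (S.pair.2 * R.pair.2) • x + (S.pair.1 * R.pair.2 + S.pair.2 * R.pair.1 +
      loopVal * (S.pair.1 * R.pair.1)) • M.cup j (M.cap j x)
    module
  | rot R hR =>
    intro j n x hj hx
    have h1 : sh j (rotW R.word) = pU (2 + j) :: (sh (1 + j) R.word ++ [pN j]) := by
      show sh j (pU 2 :: (sh 1 R.word ++ [pN 0])) = _
      rw [sh_cons, sh_append, sh_sh, Nat.add_comm j 1]
      show pU (2 + j) :: (sh (1 + j) R.word ++ [pN (0 + j)]) = _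
      rw [Nat.zero_add]
    have hy : M.Supp (n + 2) (M.cup (2 + j) x) := M.supp_cup _ _ _ (by omega) hx
    show runW M (sh j (rotW R.word)) x = _
    rw [h1, pairRun_cons, pairRun_append, pairRun_U, hR (1 + j) (n + 2) _ (by omega) hy,
      pairRun_cons, pairRun_nil, pairRun_N, map_add, map_smul, map_smul]
    have h2 : M.cap j (M.cup (2 + j) x) = M.cup j (M.cap j x) := by
      have h := M.rel5 n j 0 x hx (by omega)
      rw [show j + 0 + 2 = 2 + j by omega, Nat.add_zero] at h
      exact h
    have h3 : M.cap (1 + j) (M.cup (2 + j) x) = x := by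
      have h := M.rel3 n (1 + j) x hx (by omega)
      rw [show 1 + j + 1 = 2 + j by omega] at h
      exact h
    have h4 : M.cap j (M.cup (1 + j) x) = x := by
      have h := M.rel3 n j x hx (by omega)
      rw [show j + 1 = 1 + j by omega] at h
      exact h
    rw [h2, h3, h4]
    show R.pair.2 • M.cup j (M.cap j x) + R.pair.1 • x = R.pair.1 • x +
      R.pair.2 • M.cup j (M.cap j x)
    exact add_comm _ _

theorem pj (R : Alt) : PJ R.pair R.nt.J := by
  induction R with
  | zero => exact PJ.arb .zero
  | cross p => exact PJ.arb (.cross p)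
  | leaf L => exact L.jet
  | sum S R hS hR => exact hS.sum hR
  | rot R hR => exact hR.rot

/-- the bracket of the numerator closure -/
noncomputable def brN (R : Alt) : LP := R.pair.1 + loopVal * R.pair.2

/-- the bracket of the denominator closure -/
noncomputable def brD (R : Alt) : LP := R.pair.2 + loopVal * R.pair.1

/-- the operator of the numerator closure -/
theorem run_NW (R : Alt) (V : Type) [AddCommGroup V] [Module LP V] (M : Model LP V)
    (hM : Good M) : runW M (NW R.word) M.init = (loopVal * brN R) • M.init := by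
  have h0 := M.supp_init
  have h2 : M.Supp 2 (M.cup 0 M.init) := M.supp_cup 0 0 _ (by omega) h0
  have h4 : M.Supp 4 (M.cup 1 (M.cup 0 M.init)) := M.supp_cup 2 1 _ (by omega) h2
  have e : runW M (NW R.word) M.init =
      M.cap 0 (M.cap 1 (runW M R.word (M.cup 1 (M.cup 0 M.init)))) := by
    show runW M (pU 0 :: pU 1 :: (R.word ++ [pN 1, pN 0])) M.init = _
    rw [pairRun_cons, pairRun_cons, pairRun_append]
    rfl
  have h5 := run R V M hM 0 4 _ (by omega) h4
  rw [sh_zero] at h5
  have h6 : M.cap 0 (M.cup 1 (M.cup 0 M.init)) = M.cup 0 M.init := M.rel3 2 0 _ h2 (by omega)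
  have h7 : M.cap 1 (M.cup 1 (M.cup 0 M.init)) = loopVal • M.cup 0 M.init := by
    rw [← hM.del]
    exact M.rel1 2 1 _ h2 (by omega)
  have h8 : M.cap 1 (M.cup 0 (M.cup 0 M.init)) = M.cup 0 M.init := M.rel2 2 0 _ h2 (by omega)
  have h9 : M.cap 0 (M.cup 0 M.init) = loopVal • M.init := by
    rw [← hM.del]
    exact M.rel1 0 0 _ h0 (by omega)
  rw [e, h5, h6]
  simp only [map_add, map_smul]
  rw [h7, h8]
  simp only [map_smul]
  rw [h9]
  unfold brN
  module

end Alt

/-! ### units -/

theorem isU_unit {u : LP} (h : IsUnit u) : IsU u := by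
  obtain ⟨v, huv⟩ := h.exists_right_inv
  obtain ⟨n, f, hf⟩ := LaurentPolynomial.exists_T_pow u
  obtain ⟨m, g, hg⟩ := LaurentPolynomial.exists_T_pow v
  have h1 : f * g = Polynomial.X ^ (n + m) := by
    apply Polynomial.toLaurent_injective
    rw [map_mul, hf, hg, Polynomial.toLaurent_X_pow]
    have : u * T n * (v * T m) = (u * v) * (T n * T m) := by ring
    rw [this, huv, one_mul, ← T_add]
    push_cast
    rfl
  have h2 : f ∣ Polynomial.X ^ (n + m) := ⟨g, h1.symm⟩
  obtain ⟨i, _, c, hc⟩ := (dvd_prime_pow Polynomial.prime_X _).mp h2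
  obtain ⟨r, hr, hrc⟩ := Polynomial.isUnit_iff.mp c.isUnit
  have hr2 := Int.isUnit_iff.mp hr
  have h3 : u = T (i - n) ∨ u = -T (i - n) := by
    have h4 : Polynomial.toLaurent (f * (c : Polynomial ℤ)) = T (i : ℤ) := by
      rw [hc, Polynomial.toLaurent_X_pow]
    rw [map_mul, hf, ← hrc, Polynomial.toLaurent_C] at h4
    have h5 : ∀ x : LP, x * T n = T (i : ℤ) → x = T (i - n) := by
      intro x hx
      have : x = x * T n * T (-n) := by
        rw [mul_assoc, ← T_add, add_neg_cancel, T_zero, mul_one]
      rw [this, hx, ← T_add]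
      rfl
    rcases hr2 with hr2 | hr2
    · left
      apply h5
      rw [hr2] at h4
      simpa using h4
    · right
      rw [eq_neg_iff_add_eq_zero, ← sub_neg_eq_add, sub_eq_zero, ← neg_eq_iff_eq_neg] 
      apply h5
      rw [hr2] at h4
      simpa using h4
  exact ⟨_, h3⟩

theorem IsU.isUnit {u : LP} (h : IsU u) : IsUnit u := by
  obtain ⟨v, _, hv⟩ := h.inv
  exact IsUnit.of_mul_eq_one_right _ hv

theorem isU_left {a b : LP} (h : IsU (a * b)) : IsU a :=
  isU_unit (isUnit_of_mul_isUnit_left (IsU.isUnit h))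

theorem isU_right {a b : LP} (h : IsU (a * b)) : IsU b :=
  isU_unit (isUnit_of_mul_isUnit_right (IsU.isUnit h))

end Pool.Agent.ALT
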