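import Mathlib
import Pool.Agent.ALT.Ind.Alt

/-!
# ALT, induction block: reduced combinations
-/

set_option autoImplicit false

namespace Pool.Agent.ALT

open Pool.Agent.ARB LaurentPolynomial Pool.Agent.Helper2

namespace Alt

/-- the numerator closure is isotopic to the trivial diagram -/
def Un (T : Alt) : Prop := Iso 0 (NW T.word) O1

/-- the tangle infinity -/
def inf : Alt := of infA

/-- `A` may replace `A'` in trivial diagrams -/
def Le (A A' : Alt) : Prop := ∀ B : Alt, Un (.sum A' B) → Un (.sum A B)

theorem Le.refl (A : Alt) : Le A A := fun _ h => h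

theorem Le.trans {A B C : Alt} (h : Le A B) (h' : Le B C) : Le A C := fun D u => h D (h' D u)

theorem un_of {R : Arb} : Un (of R) ↔ ARB.Un R := by
  unfold Un ARB.Un
  rw [of_word]

theorem un_assoc (A B C : Alt) : Un (.sum (.sum A B) C) ↔ Un (.sum A (.sum B C)) := by
  unfold Un
  simp only [word, List.append_assoc]

theorem un_iso {A B : Alt} (h : Iso 2 A.word B.word) (u : Un B) : Un A :=
  Iso.trans (top.congN _ _ h) u

theorem un_comm {A B : Alt} (u : Un (.sum A B)) : Un (.sum B A) :=
  Iso.trans (top.t1 B.word A.word (okA B) (okA A)) u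

theorem un_rot1 {A B : Alt} (u : Un (.sum A (.rot B))) : Un (.sum (.rot A) B) :=
  Iso.trans (top.t2 A.word B.word (okA A) (okA B)) u

theorem un_rot2 {A B : Alt} (u : Un (.sum (.rot A) B)) : Un (.sum A (.rot B)) :=
  Iso.trans (top.t2 A.word B.word (okA A) (okA B)).symm u

theorem isoR (A : Alt) {B B' : Alt} (h : Iso 2 B.word B'.word) :
    Iso 2 (Alt.sum A B).word (Alt.sum A B').word :=
  top.congS _ _ _ _ (okA A) (okA A) (Iso.refl _ _) h

theorem isoL {A A' : Alt} (h : Iso 2 A.word A'.word) (B : Alt) :
    Iso 2 (Alt.sum A B).word (Alt.sum A' B).word :=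
  top.congS _ _ _ _ (okA A) (okA A') h (Iso.refl _ _)

theorem le_iso {A A' : Alt} (h : Iso 2 A.word A'.word) : Le A A' :=
  fun B u => un_iso (isoL h B) u

theorem le_sumL {A A' : Alt} (h : Le A A') (B : Alt) : Le (.sum A B) (.sum A' B) := by
  intro C u
  rw [un_assoc] at u ⊢
  exact h _ u

theorem le_sumR {A A' : Alt} (h : Le A A') (B : Alt) : Le (.sum B A) (.sum B A') := by
  intro C u
  rw [un_assoc] at u ⊢
  have u2 := un_comm u
  rw [un_assoc] at u2
  have u3 := h _ u2
  rw [← un_assoc] at u3
  exact un_comm u3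

theorem le_rot {A A' : Alt} (h : Le A A') : Le (.rot A) (.rot A') :=
  fun _ u => un_rot1 (h _ (un_rot2 u))

theorem un_conn {A B : Alt} (u : Un (.sum A inf)) (v : Un (.sum B inf)) :
    Un (.sum (.sum A B) inf) := by
  have e : ∀ A : Alt, Iso 0 (NW (Alt.sum A inf).word) (DW A.word) := by
    intro A
    have h := top.t7 A.word (okA A)
    have h2 : (Alt.sum A inf).word = A.word ++ rotW [] := by
      simp only [word, inf, of_word]
      rfl
    rw [h2]
    exact h
  have h1 : Iso 0 (DW A.word) O1 := (e A).symm.trans u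
  have h2 : Iso 0 (DW B.word) O1 := (e B).symm.trans v
  have h3 := top.t5 A.word B.word (okA A) (okA B) h1 h2
  exact (e (Alt.sum A B)).trans h3

/-- a knotted arc may be replaced by a trivial one -/
theorem le_long1 {B : Alt} (u : Un (.sum B inf)) : Le (.sum inf B) inf := by
  intro C v
  rw [un_assoc]
  exact un_comm (un_conn u (un_comm v))

theorem le_long2 {B : Alt} (u : Un (.sum B inf)) : Le (.sum B inf) inf := by
  intro C v
  refine un_comm ?_
  rw [← un_assoc]
  exact un_conn (un_comm v) u

/-! ### brackets -/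

/-- isotopic closures have the same bracket up to a unit -/
theorem br_iso {S T : Alt} (h : Iso 0 (NW S.word) (NW T.word)) :
    ∃ u : LP, IsU u ∧ brN S = u * brN T := by
  obtain ⟨V, _, _, M, hM, hinj⟩ := thm_Vert
  have hok : Ok (NW S.word) 0 0 := by
    have h1 : Ok (S.word ++ [pN 1, pN 0]) 4 0 := by
      refine ((okA S).add 2).append ?_
      exact ⟨by decide, by decide, rfl⟩
    exact ⟨by decide, by decide, h1⟩
  obtain ⟨u, hu, hrun⟩ := thm_Inv V M hM 0 0 (NW S.word) (NW T.word) hok h
  refine ⟨u, hu, ?_⟩
  have h4 := hrun M.init M.supp_init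
  rw [run_NW S V M hM, run_NW T V M hM, smul_smul] at h4
  have h5 := hinj _ _ h4
  apply mul_left_cancel₀ pairRun_loopVal_ne
  rw [h5]
  ring

theorem isU_iso {S T : Alt} (h : Iso 0 (NW S.word) (NW T.word)) (hS : IsU (brN S)) :
    IsU (brN T) := by
  obtain ⟨u, _, h1⟩ := br_iso h
  rw [h1] at hS
  exact isU_right hS

/-- a unit bracket gives determinant one and `E = 0` -/
theorem unit_E {T : Alt} (h : IsU (brN T)) : T.nt.x.1.natAbs = 1 ∧ T.nt.J.E = 0 := by
  obtain ⟨h1, h2⟩ := (pj T).unit h
  refine ⟨?_, h2⟩
  rw [T.nt.hp] at h1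
  rcases h1 with h1 | h1
  · have h3 : T.nt.x.1 = 1 := by exact_mod_cast h1
    rw [h3]
    rfl
  · have h3 : T.nt.x.1 = -1 := by exact_mod_cast h1
    rw [h3]
    rfl

theorem br_assoc (A B C : Alt) : brN (.sum (.sum A B) C) = brN (.sum A (.sum B C)) := by
  simp only [brN, pair]
  ring

theorem br_comm (A B : Alt) : brN (.sum A B) = brN (.sum B A) := by
  simp only [brN, pair]
  ring

theorem br_rot (A B : Alt) : brN (.sum (.rot A) B) = brN (.sum A (.rot B)) := by
  simp only [brN, pair]
  ring

theorem br_inf (A : Alt) : brN (.sum A inf) = brD A := by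
  simp only [brN, brD, pair, inf, of_pair]
  simp only [infA, Arb.pair]
  ring

theorem brD_sum (A B : Alt) : brD (.sum A B) = brD A * brD B := by
  simp only [brD, pair]
  ring

theorem br_zero (A : Alt) : brN (.sum A .zero) = brN A := by
  simp only [brN, pair]
  ring

/-! ### reduced combinations -/

/-- no summand is a tangle of slope infinity with `Om = -1` -/
def Red : Alt → Prop
  | .zero => True
  | .cross _ => True
  | .leaf _ => True
  | .sum S T => S.Red ∧ T.Red ∧ ¬ (S.nt.x.2 = 0 ∧ S.nt.J.Om = -1) ∧
      ¬ (T.nt.x.2 = 0 ∧ T.nt.J.Om = -1)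
  | .rot T => T.Red

/-- every reduced combination has one of the two types -/
theorem ty (T : Alt) (hT : Red T) (hc : NT.Cop T.nt) : NT.Ty T.nt := by
  induction T with
  | zero => exact Or.inl (NT.tyI_rat Rat.zero)
  | cross p =>
    left
    refine ⟨fun R hR hD => main1 three (.cross p) R hR hD, Or.inl ?_⟩
    show (Jet.cross p).Om = -1
    cases p <;> simp only [Jet.cross, Jet.Om] <;> norm_num
  | leaf L =>
    right
    refine ⟨fun R hR hD => ?_, L.om hc⟩
    refine L.E hc R hR ?_
    have h1 : (L.J.sum R.jet).p = (((Alt.leaf L).nt.sum (NT.of R)).x.1 : ℚ) :=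
      ((Alt.leaf L).nt.sum (NT.of R)).hp
    rw [h1]
    exact NT.sq_one hD
  | sum A B ihA ihB =>
    obtain ⟨rA, rB, nA, nB⟩ := hT
    obtain ⟨cA, cB, _⟩ := NT.Cop.sum hc
    exact NT.ty_sum hc (ihA rA cA) (ihB rB cB) nA nB
  | rot A ih => exact NT.ty_rot (ih hT (NT.Cop.rot hc))

theorem int_of {A B : NT} (hc : NT.Cop (A.sum B)) (hA : A.J.Om = -1) (hB : B.J.Om = -1)
    (hO : (A.sum B).J.Om = -1) : A.x.2.natAbs = 1 ∨ B.x.2.natAbs = 1 := by
  have h1 := NT.om_sum A B
  rw [hO, hA, hB] at h1
  have h2 : ((A.x.2 : ℚ) ^ 2 - 1) * ((B.x.2 : ℚ) ^ 2 - 1) = 0 := by linarith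
  have key : ∀ z : ℤ, (z : ℚ) ^ 2 - 1 = 0 → z.natAbs = 1 := by
    intro z hz
    have h3 : z ^ 2 - 1 = 0 := by exact_mod_cast hz
    have h4 : (z - 1) * (z + 1) = 0 := by linear_combination h3
    rcases mul_eq_zero.mp h4 with h5 | h5
    · rw [sub_eq_zero.mp h5]
      rfl
    · rw [eq_neg_of_add_eq_zero_left h5]
      rfl
  rcases mul_eq_zero.mp h2 with h3 | h3
  · exact Or.inl (key _ h3)
  · exact Or.inr (key _ h3)

/-- `Om = -1` for a sum with summands of finite slope -/
theorem om_parts {A B : NT} (hA : -1 ≤ A.J.Om) (hB : -1 ≤ B.J.Om) (qA : A.x.2 ≠ 0)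
    (qB : B.x.2 ≠ 0) (hO : (A.sum B).J.Om = -1) : A.J.Om = -1 ∧ B.J.Om = -1 := by
  have h1 := NT.om_sum A B
  rw [hO] at h1
  have a1 := NT.sq_ge qA
  have b1 := NT.sq_ge qB
  have e1 : A.J.Om + 1 ≤ (A.J.Om + 1) * (B.x.2 : ℚ) ^ 2 := by nlinarith
  have e2 : B.J.Om + 1 ≤ (B.J.Om + 1) * (A.x.2 : ℚ) ^ 2 := by nlinarith
  have e3 : 0 ≤ ((A.x.2 : ℚ) ^ 2 - 1) * ((B.x.2 : ℚ) ^ 2 - 1) :=
    mul_nonneg (by linarith) (by linarith)
  constructor <;> linarith

/-- a reduced combination with `Om = -1` is isotopic to a rational tangle -/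
theorem red_rat (T : Alt) (hT : Red T) (hc : NT.Cop T.nt) (hO : T.nt.J.Om = -1) :
    ∃ R : Arb, Rat R ∧ NT.SS T.nt (NT.of R) ∧ Iso 2 T.word R.word := by
  induction T with
  | zero => exact ⟨.zero, Rat.zero, NT.SS.refl _, Iso.refl _ _⟩
  | cross p =>
    refine ⟨.sum .zero (.cross p), ARB.Rat.add _ p Rat.zero, Or.inl ⟨?_, ?_⟩, Iso.refl _ _⟩ <;>
      simp [nt, NT.of, Arb.pq]
  | leaf L =>
    exfalso
    have h1 := L.om hc
    have h2 : L.J.Om = -1 := hO
    linarith
  | rot T ih =>
    obtain ⟨R, hR, s, i⟩ := ih hT (NT.Cop.rot hc) (by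
      rw [← Jet.Om_rot]
      exact hO)
    exact ⟨.rot R, Rat.rot R hR, s.rot, top.congR _ _ i⟩
  | sum A B ihA ihB =>
    obtain ⟨rA, rB, nA, nB⟩ := hT
    have hc' : NT.Cop (A.nt.sum B.nt) := hc
    have hO' : (A.nt.sum B.nt).J.Om = -1 := hO
    obtain ⟨cA, cB, _⟩ := NT.Cop.sum hc'
    have qA : A.nt.x.2 ≠ 0 := by
      intro h
      exact nA ⟨h, by rw [← (NT.om_zero hc' h).2]; exact hO'⟩
    have qB : B.nt.x.2 ≠ 0 := by
      intro h
      refine nB ⟨h, ?_⟩
      rw [NT.sum_comm] at hc' hO'
      rw [← (NT.om_zero hc' h).2]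
      exact hO'
    obtain ⟨oA, oB⟩ := om_parts (ty A rA cA).ge (ty B rB cB).ge qA qB hO'
    obtain ⟨A', hA', sA, iA⟩ := ihA rA cA oA
    obtain ⟨B', hB', sB, iB⟩ := ihB rB cB oB
    obtain ⟨W, hW, s⟩ := NT.ratEx _ hc'
    have sAB : NT.SS (NT.of (.sum A' B')) (NT.of W) := by
      rw [NT.of_sum]
      exact ((sA.symm.sumL _).trans (sB.symm.sumR _)).trans s
    refine ⟨W, hW, s, ?_⟩
    have i1 : Iso 2 (A.word ++ B.word) (A'.word ++ B'.word) :=
      top.congS _ _ _ _ (okA A) (ARB.okA A') iA iB
    refine i1.trans ?_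
    rcases int_of hc' oA oB hO' with hq | hq
    · have hq' : A'.pq.2.natAbs = 1 := by
        rw [← hq]
        exact sA.q.symm
      have sBA : SameSlope (.sum B' A') W := (SameSlope.sumC B' A').trans sAB.arb
      exact (int_iso top hB' hA' hq' hW sBA).2
    · have hq' : B'.pq.2.natAbs = 1 := by
        rw [← hq]
        exact sB.q.symm
      exact (int_iso top hA' hB' hq' hW sAB.arb).1

/-- a counterexample made from one leaf of `T` and one rational tangle -/
def Bad (T : Alt) : Prop := ∃ L : Lf, Has L T ∧ ∃ R : Arb, Rat R ∧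
  IsU (brN (.sum (.leaf L) (of R))) ∧ ¬ Un (.sum (.leaf L) (of R))

/-- reduced combinations closed up with a rational tangle -/
theorem close (T : Alt) (hT : Red T) : ∀ R : Arb, Rat R → IsU (brN (.sum T (of R))) →
    Un (.sum T (of R)) ∨ Bad T := by
  induction T with
  | zero =>
    intro R hR h
    left
    have h1 := alg_unit top (.sum .zero R) (by
      have := h
      unfold brN at this
      simp only [pair, of_pair] at this
      exact this)
    unfold Un
    simp only [word, of_word]
    exact h1
  | cross p =>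
    intro R hR h
    left
    have h1 := alg_unit top (.sum (.cross p) R) (by
      have := h
      unfold brN at this
      simp only [pair, of_pair] at this
      exact this)
    unfold Un
    simp only [word, of_word]
    exact h1
  | leaf L =>
    intro R hR h
    by_cases hu : Un (.sum (.leaf L) (of R))
    · exact Or.inl hu
    · exact Or.inr ⟨L, rfl, R, hR, h, hu⟩
  | rot T ih =>
    intro R hR h
    rw [br_rot] at h
    rcases ih hT (.rot R) (Rat.rot R hR) h with h1 | h1
    · exact Or.inl (un_rot1 h1)
    · exact Or.inr h1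
  | sum A B ihA ihB =>
    intro R hR h
    obtain ⟨rA, rB, nA, nB⟩ := hT
    obtain ⟨hp, hE⟩ := unit_E h
    have hD : NT.D1 (A.nt.sum B.nt) (NT.of R) := by
      rw [← of_nt]
      exact hp
    have hE' : ((A.nt.sum B.nt).sum (NT.of R)).J.E = 0 := by
      rw [← of_nt]
      exact hE
    have badA : Bad A → Bad (.sum A B) := fun ⟨L, h1, h2⟩ => ⟨L, Or.inl h1, h2⟩
    have badB : Bad B → Bad (.sum A B) := fun ⟨L, h1, h2⟩ => ⟨L, Or.inr h1, h2⟩
    by_cases hq : (NT.of R).x.2 = 0
    · -- connected sum
      have cR : NT.Cop (NT.of R) := (rat_om R hR).1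
      have iR : Iso 2 (of R).word inf.word := by
        unfold inf
        rw [of_word, of_word]
        exact rat_iso top hR infA_rat (slope_of_q (rat_om R hR).1 (rat_om _ infA_rat).1 hq rfl)
      have hinf : IsU (brN (.sum (.sum A B) inf)) :=
        isU_iso (top.congN _ _ (isoR (.sum A B) iR)) h
      rw [br_inf, brD_sum] at hinf
      have hA := isU_left hinf
      have hB := isU_right hinf
      rw [← br_inf] at hA hB
      rcases ihA rA infA infA_rat hA with uA | uA
      · rcases ihB rB infA infA_rat hB with uB | uB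
        · exact Or.inl (un_iso (isoR (.sum A B) iR) (un_conn uA uB))
        · exact Or.inr (badB uB)
      · exact Or.inr (badA uA)
    have pC : NT.D1 A.nt (B.nt.sum (NT.of R)) := hD.assoc
    obtain ⟨cA, cC⟩ := pC.cop
    have cB := cC.sum.1
    have tA := ty A rA cA
    have tB := ty B rB cB
    have nR : ¬ ((NT.of R).x.2 = 0 ∧ (NT.of R).J.Om = -1) := fun h => hq h.1
    have tC : NT.Ty (B.nt.sum (NT.of R)) := NT.ty_sum cC tB (Or.inl (NT.tyI_rat hR)) nB nR
    by_cases oA : A.nt.J.Om = -1
    · -- `A` is rational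
      obtain ⟨A', hA', sA, iA⟩ := red_rat A rA cA oA
      have i1 : Iso 2 (Alt.sum (.sum A B) (of R)).word
          (Alt.sum (of A') (.sum B (of R))).word := by
        have e : (Alt.sum (.sum A B) (of R)).word = (Alt.sum A (.sum B (of R))).word := by
          simp only [word, List.append_assoc]
        rw [e]
        refine isoL ?_ _
        rw [of_word]
        exact iA
      have i2 : Iso 0 (NW (Alt.sum (.sum A B) (of R)).word)
          (NW (Alt.sum B (of (.sum R A'))).word) := by
        refine (top.congN _ _ i1).trans ?_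
        have h1 := top.t1 (of A').word (Alt.sum B (of R)).word (okA _) (okA _)
        have e : (Alt.sum B (of (.sum R A'))).word = (Alt.sum B (of R)).word ++ (of A').word := by
          simp only [word, of, List.append_assoc]
        rw [e]
        exact h1
      have hU : IsU (brN (.sum B (of (.sum R A')))) := isU_iso i2 h
      obtain ⟨hp2, hE2⟩ := unit_E hU
      have hD2 : NT.D1 B.nt (NT.of (.sum R A')) := by
        rw [← of_nt]
        exact hp2
      have hE3 : (B.nt.sum (NT.of (.sum R A'))).J.E = 0 := by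
        rw [← of_nt]
        exact hE2
      have cD := hD2.cop.2
      by_cases oD : (NT.of (.sum R A')).J.Om = -1
      · -- absorb
        obtain ⟨W, hW, sW⟩ := NT.ratEx _ cD
        have iD : Iso 2 (Arb.sum R A').word W.word := by
          have oR := (rat_om R hR).2
          have oA' := (rat_om A' hA').2
          rcases int_of_om cD oD with hq1 | hq1
          · exact (int_iso top hR hA' hq1 hW sW).1
          · exact (int_iso top hA' hR hq1 hW ((SameSlope.sumC A' R).trans sW)).2
        have i3 : Iso 2 (Alt.sum B (of (.sum R A'))).word (Alt.sum B (of W)).word := by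
          refine isoR B ?_
          rw [of_word, of_word]
          exact iD
        have hW2 : IsU (brN (.sum B (of W))) := isU_iso (top.congN _ _ i3) hU
        rcases ihB rB W hW hW2 with h3 | h3
        · left
          exact i2.trans (un_iso i3 h3)
        · exact Or.inr (badB h3)
      · -- not absorbed
        have qA' : (NT.of A').x.2 ≠ 0 := by
          intro h0
          apply oD
          rw [NT.of_sum, NT.sum_comm] at cD ⊢
          rw [(NT.om_zero cD h0).2]
          exact NT.om_of hA'
        have tD : NT.Ty (NT.of (.sum R A')) := by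
          rw [NT.of_sum] at cD ⊢
          exact NT.ty_sum cD (Or.inl (NT.tyI_rat hR)) (Or.inl (NT.tyI_rat hA'))
            (fun h => hq h.1) (fun h => qA' h.1)
        by_cases oB : B.nt.J.Om = -1
        · obtain ⟨B', hB', sB, iB⟩ := red_rat B rB cB oB
          have i4 : Iso 2 (Alt.sum B (of (.sum R A'))).word (Arb.sum B' (.sum R A')).word := by
            have e : (Arb.sum B' (.sum R A')).word = B'.word ++ (Arb.sum R A').word := rfl
            rw [e]
            simp only [word, of_word]
            exact top.congS _ _ _ _ (okA B) (ARB.okA B') iB (Iso.refl _ _)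
          have i5 : Iso 2 (Alt.sum B (of (.sum R A'))).word (of (.sum B' (.sum R A'))).word := by
            rw [of_word]
            exact i4
          have hU2 : IsU (brN (of (.sum B' (.sum R A')))) := isU_iso (top.congN _ _ i5) hU
          have h6 := alg_unit top (.sum B' (.sum R A')) (by
            have := hU2
            unfold brN at this
            rw [of_pair] at this
            exact this)
          left
          exact i2.trans ((top.congN _ _ i4).trans h6)
        · exfalso
          have h7 := NT.both hD2 tB tD oB oD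
          linarith
    · -- `A` is not rational
      by_cases oC : (B.nt.sum (NT.of R)).J.Om = -1
      · have qB : B.nt.x.2 ≠ 0 := by
          intro h0
          exact nB ⟨h0, by rw [← (NT.om_zero cC h0).2]; exact oC⟩
        obtain ⟨oB, _⟩ := om_parts tB.ge (NT.om_of hR).ge qB hq oC
        obtain ⟨B', hB', sB, iB⟩ := red_rat B rB cB oB
        obtain ⟨W, hW, sW⟩ := NT.ratEx _ cC
        have sBR : SameSlope (.sum B' R) W := by
          have : NT.SS (NT.of (.sum B' R)) (NT.of W) := by
            rw [NT.of_sum]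
            exact (sB.symm.sumL _).trans sW
          exact this
        have iC : Iso 2 (Arb.sum B' R).word W.word := by
          rcases int_of cC oB (NT.om_of hR) oC with hq1 | hq1
          · have hq1' : B'.pq.2.natAbs = 1 := by
              rw [← hq1]
              exact sB.q.symm
            exact (int_iso top hR hB' hq1' hW ((SameSlope.sumC R B').trans sBR)).2
          · exact (int_iso top hB' hR hq1 hW sBR).1
        have i1 : Iso 2 (Alt.sum (.sum A B) (of R)).word (Alt.sum A (of W)).word := by
          have e : (Alt.sum (.sum A B) (of R)).word = (Alt.sum A (.sum B (of R))).word := by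
            simp only [word, List.append_assoc]
          rw [e]
          refine isoR A ?_
          have i2 : Iso 2 (Alt.sum B (of R)).word (Arb.sum B' R).word := by
            have e2 : (Arb.sum B' R).word = B'.word ++ R.word := rfl
            rw [e2]
            simp only [word, of_word]
            exact top.congS _ _ _ _ (okA B) (ARB.okA B') iB (Iso.refl _ _)
          rw [of_word]
          exact i2.trans iC
        have hW2 : IsU (brN (.sum A (of W))) := isU_iso (top.congN _ _ i1) h
        rcases ihA rA W hW hW2 with h3 | h3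
        · exact Or.inl (un_iso i1 h3)
        · exact Or.inr (badA h3)
      · exfalso
        have h7 := NT.both pC tA tC oA oC
        rw [← NT.sum_assoc] at h7
        linarith

end Alt

end Pool.Agent.ALT
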