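import Mathlib
import Pool.Agent.ALT.Ind.Close

/-!
# ALT, induction block: local knots and the main theorem
-/

set_option autoImplicit false

namespace Pool.Agent.ALT

open Pool.Agent.ARB LaurentPolynomial Pool.Agent.Helper2

namespace Alt

/-- `T` is `T0` with local knots; `κ` is the product of the brackets of the local knots. -/
structure Loc (T T0 : Alt) (κ : LP) : Prop where
  red : Red T0
  has : ∀ L : Lf, Has L T0 → Has L T
  ss : NT.SS T.nt T0.nt
  br : ∀ C : Alt, ∃ u : LP, IsU u ∧ brN (.sum T C) = u * κ * brN (.sum T0 C)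
  le : IsU κ → Le T T0 ∨ Bad T

theorem Loc.refl {T : Alt} (h : Red T) : Loc T T 1 where
  red := h
  has := fun _ h => h
  ss := NT.SS.refl _
  br := fun C => ⟨1, IsU.one, by ring⟩
  le := fun _ => Or.inl (Le.refl T)

/-- closing up a local knot with infinity -/
theorem br_D {B B0 : Alt} {κ : LP} (h : Loc B B0 κ) : ∃ u : LP, IsU u ∧
    brD B = u * κ * brD B0 := by
  obtain ⟨u, hu, h1⟩ := h.br inf
  exact ⟨u, hu, by rw [← br_inf, ← br_inf]; exact h1⟩

/-- a summand of slope infinity with `Om = -1` -/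
private theorem loc_inf {A B A0 B0 : Alt} {κA κB : LP} (hc : NT.Cop (A.nt.sum B.nt))
    (hA : Loc A A0 κA) (hB : Loc B B0 κB) (q0 : A0.nt.x.2 = 0) (o0 : A0.nt.J.Om = -1) :
    Iso 2 A0.word inf.word ∧ NT.SS (A.nt.sum B.nt) inf.nt ∧
      (∀ C : Alt, ∃ u : LP, IsU u ∧
        brN (.sum (.sum A B) C) = u * (κA * κB * brD B0) * brN (.sum inf C)) ∧
      (IsU (κA * κB * brD B0) → (Le A A0 ∧ Le B B0 ∧ Un (.sum B0 inf)) ∨ Bad (.sum A B)) := by
  have cA0 : NT.Cop A0.nt := by
    have h1 := hc.sum.1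
    obtain ⟨u, v, huv⟩ := h1
    rcases hA.ss with ⟨e1, e2⟩ | ⟨e1, e2⟩
    · exact ⟨u, v, by rw [← e1, ← e2]; exact huv⟩
    · exact ⟨-u, -v, by rw [e1, e2] at huv; linarith⟩
  obtain ⟨A', hA', sA, iA⟩ := red_rat A0 hA.red cA0 o0
  have qA' : A'.pq.2 = 0 := sA.q0.mp q0
  have iA2 : Iso 2 A0.word inf.word := by
    refine iA.trans ?_
    unfold inf
    rw [of_word]
    exact rat_iso top hA' infA_rat (slope_of_q (rat_om A' hA').1 (rat_om _ infA_rat).1 qA' rfl)
  have qA : A.nt.x.2 = 0 := hA.ss.q0.mpr q0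
  have qT : (A.nt.sum B.nt).x.2 = 0 := by
    simp only [NT.sum]
    rw [qA, zero_mul]
  refine ⟨iA2, ?_, ?_, ?_⟩
  · have h1 := hc.zero qT
    have h2 : inf.nt.x = (1, 0) := by
      unfold inf
      rw [of_nt]
      simp [NT.of, infA, Arb.pq]
    rcases Int.natAbs_eq (A.nt.sum B.nt).x.1 with h3 | h3
    · refine Or.inl ⟨?_, ?_⟩
      · rw [h3, h1, h2]
        rfl
      · rw [qT, h2]
    · refine Or.inr ⟨?_, ?_⟩
      · rw [h3, h1, h2]
        rfl
      · rw [qT, h2, neg_zero]
  · intro C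
    obtain ⟨u1, hu1, e1⟩ := hA.br (.sum B C)
    obtain ⟨u2, hu2, e2⟩ := br_iso (top.congN _ _ (isoL iA2 (.sum B C)))
    obtain ⟨u3, hu3, e3⟩ := br_D hB
    refine ⟨u1 * u2 * u3, (hu1.mul hu2).mul hu3, ?_⟩
    rw [br_assoc, e1, e2, br_comm inf, br_inf, brD_sum, e3, br_comm inf, br_inf]
    ring
  · intro hU
    have h1 := isU_left hU
    have hD := isU_right hU
    have hκA := isU_left h1
    have hκB := isU_right h1
    rcases hA.le hκA with lA | lA
    · rcases hB.le hκB with lB | lB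
      · rw [← br_inf] at hD
        rcases close B0 hB.red infA infA_rat hD with u | u
        · exact Or.inl ⟨lA, lB, u⟩
        · obtain ⟨L, h2, h3⟩ := u
          exact Or.inr ⟨L, Or.inr (hB.has L h2), h3⟩
      · obtain ⟨L, h2, h3⟩ := lB
        exact Or.inr ⟨L, Or.inr h2, h3⟩
    · obtain ⟨L, h2, h3⟩ := lA
      exact Or.inr ⟨L, Or.inl h2, h3⟩

/-- every combination is a reduced one with local knots -/
theorem exLoc (T : Alt) (hc : NT.Cop T.nt) : ∃ (T0 : Alt) (κ : LP), Loc T T0 κ := by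
  induction T with
  | zero => exact ⟨_, _, Loc.refl trivial⟩
  | cross p => exact ⟨_, _, Loc.refl trivial⟩
  | leaf L => exact ⟨_, _, Loc.refl trivial⟩
  | rot T ih =>
    obtain ⟨T0, κ, h⟩ := ih (NT.Cop.rot hc)
    refine ⟨.rot T0, κ, h.red, h.has, h.ss.rot, fun C => ?_, fun hU => ?_⟩
    · obtain ⟨u, hu, e⟩ := h.br (.rot C)
      exact ⟨u, hu, by rw [br_rot, br_rot]; exact e⟩
    · rcases h.le hU with l | l
      · exact Or.inl (le_rot l)
      · exact Or.inr l
  | sum A B ihA ihB =>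
    have hc' : NT.Cop (A.nt.sum B.nt) := hc
    obtain ⟨cA, cB, _⟩ := hc'.sum
    obtain ⟨A0, κA, hA⟩ := ihA cA
    obtain ⟨B0, κB, hB⟩ := ihB cB
    by_cases nA : A0.nt.x.2 = 0 ∧ A0.nt.J.Om = -1
    · obtain ⟨iA, hss, hbr, hle⟩ := loc_inf hc' hA hB nA.1 nA.2
      refine ⟨inf, κA * κB * brD B0, trivial, fun L h => ?_, hss, hbr, fun hU => ?_⟩
      · exact absurd h id
      · rcases hle hU with ⟨lA, lB, u⟩ | h
        · left
          exact ((le_sumL (lA.trans (le_iso iA)) B).trans (le_sumR lB inf)).trans (le_long1 u)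
        · exact Or.inr h
    by_cases nB : B0.nt.x.2 = 0 ∧ B0.nt.J.Om = -1
    · rw [NT.sum_comm] at hc'
      obtain ⟨iB, hss, hbr, hle⟩ := loc_inf hc' hB hA nB.1 nB.2
      refine ⟨inf, κB * κA * brD A0, trivial, fun L h => absurd h id, ?_, fun C => ?_,
        fun hU => ?_⟩
      · have : NT.SS (A.nt.sum B.nt) inf.nt := by
          rw [NT.sum_comm]
          exact hss
        exact this
      · obtain ⟨u, hu, e⟩ := hbr C
        refine ⟨u, hu, ?_⟩
        rw [← e]
        simp only [brN, pair]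
        ring
      · rcases hle hU with ⟨lB, lA, u⟩ | h
        · left
          exact ((le_sumR (lB.trans (le_iso iB)) A).trans (le_sumL lA inf)).trans (le_long2 u)
        · obtain ⟨L, h2, h3⟩ := h
          exact Or.inr ⟨L, Or.symm h2, h3⟩
    · refine ⟨.sum A0 B0, κA * κB, ⟨hA.red, hB.red, nA, nB⟩, fun L h => ?_, ?_, fun C => ?_,
        fun hU => ?_⟩
      · rcases h with h | h
        · exact Or.inl (hA.has L h)
        · exact Or.inr (hB.has L h)
      · exact (hA.ss.sumL B.nt).trans (hB.ss.sumR A0.nt)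
      · obtain ⟨u1, hu1, e1⟩ := hA.br (.sum B C)
        obtain ⟨u2, hu2, e2⟩ := hB.br (.sum C A0)
        refine ⟨u1 * u2, hu1.mul hu2, ?_⟩
        rw [br_assoc, e1]
        have e3 : brN (.sum A0 (.sum B C)) = brN (.sum B (.sum C A0)) := by
          simp only [brN, pair]
          ring
        have e4 : brN (.sum B0 (.sum C A0)) = brN (.sum (.sum A0 B0) C) := by
          simp only [brN, pair]
          ring
        rw [e3, e2, e4]
        ring
      · rcases hA.le (isU_left hU) with lA | lA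
        · rcases hB.le (isU_right hU) with lB | lB
          · exact Or.inl ((le_sumL lA B).trans (le_sumR lB A0))
          · obtain ⟨L, h2, h3⟩ := lB
            exact Or.inr ⟨L, Or.inr h2, h3⟩
        · obtain ⟨L, h2, h3⟩ := lA
          exact Or.inr ⟨L, Or.inl h2, h3⟩

/-- THE MAIN THEOREM: if the bracket of the closure of a combination of leaves is a unit then the
closure is isotopic to the circle, or there is a counterexample made from one leaf and one rational
tangle. -/
theorem main (T : Alt) (h : IsU (brN T)) : Un T ∨ Bad T := by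
  have hp := (unit_E h).1
  have hc : NT.Cop T.nt := by
    rcases Int.natAbs_eq T.nt.x.1 with h1 | h1 <;> rw [hp] at h1
    · exact ⟨1, 0, by rw [h1]; norm_num⟩
    · exact ⟨-1, 0, by rw [h1]; norm_num⟩
  obtain ⟨T0, κ, hL⟩ := exLoc T hc
  obtain ⟨u, _, e⟩ := hL.br .zero
  rw [br_zero] at e
  rw [e] at h
  have hκ := isU_right (isU_left h)
  have h0 := isU_right h
  rcases hL.le hκ with l | l
  · rcases close T0 hL.red .zero Rat.zero h0 with u0 | u0
    · left
      have h1 := l _ u0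
      unfold Un at h1 ⊢
      simpa [word, of] using h1
    · obtain ⟨L, h2, h3⟩ := u0
      exact Or.inr ⟨L, hL.has L h2, h3⟩
  · exact Or.inr l

end Alt

end Pool.Agent.ALT
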