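import Pool.Agent.ALT.Bad

/-!
# ALT: arborescent combinations of leaves, definition for the statement

The definitions (`Tree`, `Tree.word`, `Tree.Leaf`) are in `Pool/Agent/ALT/Statement.lean`, `BadLeaf`
is in `Pool/Agent/ALT/Bad.lean`.
-/
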