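import Mathlib
import Pool.Agent.ALT.Ind.Main
import Pool.Agent.ALT.Ind.Tree

/-!
# ALT, induction block: the theorem for diagrams
-/

set_option autoImplicit false

namespace Pool.Agent.ALT

open Pool.Agent.ARB LaurentPolynomial Pool.Agent.Helper2

/-- forgetting the directions -/
private theorem forget_ok : ∀ (D : List Slice) (n m : ℕ), Helper2.Ok D n m →
    ARB.Ok (forget D) n m := by
  intro D
  induction D with
  | nil => intro n m h; exact h
  | cons s D ih =>
    intro n m h
    cases s with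
    | cup i u => exact ⟨by show i + 0 ≤ n; exact h.1, ih _ _ h.2⟩
    | cap i => exact ⟨h.1, ih _ _ h.2⟩
    | cross i p =>
      refine ⟨h.1, ?_⟩
      have h1 : n - 2 + 2 = n := by
        have := h.1
        omega
      show ARB.Ok (forget D) (n - 2 + 2) m
      rw [h1]
      exact ih _ _ h.2

/-- the bracket of a diagram which is isotopic to the closure of a combination -/
theorem br_diag (D : List Slice) (R : Alt) (hD : Helper2.Ok D 0 0)
    (hI : Iso 0 (forget D) (NW R.word)) : ∃ u : LP, IsU u ∧ bracket D = u * Alt.brN R := by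
  obtain ⟨V, _, _, M, hM, hinj⟩ := thm_Vert
  obtain ⟨u, hu, hrun⟩ := thm_Inv V M hM 0 0 (forget D) (NW R.word) (forget_ok D 0 0 hD) hI
  refine ⟨u, hu, ?_⟩
  have h4 := hrun M.init M.supp_init
  by_cases hne : D = []
  · exfalso
    subst hne
    rw [Alt.run_NW R V M hM, smul_smul] at h4
    have h5 : (1 : LP) • M.init = (u * (loopVal * Alt.brN R)) • M.init := by
      rw [one_smul, ← h4]
      rfl
    exact pairRun_loopVal_mul u _ (hinj _ _ h5)
  · rw [thm_BrRun V M hM D hne hD, Alt.run_NW R V M hM, smul_smul] at h4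
    have h5 := hinj _ _ h4
    apply mul_left_cancel₀ pairRun_loopVal_ne
    rw [h5]
    ring

/-- any directions -/
def lift (w : Word) : List Slice :=
  w.map fun s => match s.k with
    | .U => .cup s.i true
    | .N => .cap s.i
    | .X p => .cross s.i p

theorem forget_lift (w : Word) : forget (lift w) = w := by
  induction w with
  | nil => rfl
  | cons s w ih =>
    have h : forget (lift (s :: w)) = s :: forget (lift w) := by
      obtain ⟨k, i⟩ := s
      cases k <;> rfl
    rw [h, ih]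

theorem lift_ok : ∀ (w : Word) (n m : ℕ), ARB.Ok w n m → Helper2.Ok (lift w) n m := by
  intro w
  induction w with
  | nil => intro n m h; exact h
  | cons s w ih =>
    intro n m h
    obtain ⟨k, i⟩ := s
    cases k with
    | U => exact ⟨h.1, ih _ _ h.2⟩
    | N => exact ⟨h.1, ih _ _ h.2⟩
    | X p =>
      have h1 : i + 2 ≤ n := h.1
      refine ⟨h1, ?_⟩
      have h2 := h.2
      have h3 : n - 2 + 2 = n := by omega
      have h4 : ARB.Ok w (n - 2 + 2) m := h2
      rw [h3] at h4
      exact ih _ _ h4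

theorem badLeaf_of {L : Lf} {R : Arb} (hR : Rat R)
    (h : IsU (Alt.brN (.sum (.leaf L) (Alt.of R)))) (hn : ¬ Alt.Un (.sum (.leaf L) (Alt.of R))) :
    BadLeaf L.word := by
  have e : (Alt.sum (.leaf L) (Alt.of R)).word = L.word ++ R.word := by
    simp only [Alt.word, Alt.of_word]
  have hok : ARB.Ok (NW (L.word ++ R.word)) 0 0 := by
    have h1 : ARB.Ok ((L.word ++ R.word) ++ [pN 1, pN 0]) 4 0 := by
      refine ((L.ok.append (ARB.okA R)).add 2).append ?_
      exact ⟨by decide, by decide, rfl⟩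
    exact ⟨by decide, by decide, h1⟩
  refine ⟨R, hR, ?_, ?_⟩
  · obtain ⟨u, hu, h1⟩ := br_diag (lift (NW (L.word ++ R.word))) (.sum (.leaf L) (Alt.of R))
      (lift_ok _ _ _ hok) (by rw [forget_lift, e]; exact Iso.refl _ _)
    have h2 : IsU (bracket (lift (NW (L.word ++ R.word)))) := by
      rw [h1]
      exact hu.mul h
    exact h2
  · intro h1
    apply hn
    unfold Alt.Un
    rw [e]
    exact h1

/-- every tree is a combination in the sense of `Alt` -/
theorem exAlt (T : Tree) (h : ∀ w, T.Leaf w → ∃ L : Lf, L.word = w) :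
    ∃ A : Alt, A.word = T.word ∧ ∀ L, Alt.Has L A → T.Leaf L.word := by
  induction T with
  | zero => exact ⟨.zero, rfl, fun _ h => h⟩
  | cross p => exact ⟨.cross p, rfl, fun _ h => h⟩
  | leaf w =>
    obtain ⟨L, hL⟩ := h w rfl
    refine ⟨.leaf L, hL, fun L' h' => ?_⟩
    have h2 : L' = L := h'
    rw [h2]
    exact hL
  | sum S T hS hT =>
    obtain ⟨A, a1, a2⟩ := hS fun w hw => h w (Or.inl hw)
    obtain ⟨B, b1, b2⟩ := hT fun w hw => h w (Or.inr hw)
    refine ⟨.sum A B, ?_, fun L hL => ?_⟩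
    · simp only [Alt.word, Tree.word, a1, b1]
    · rcases hL with hL | hL
      · exact Or.inl (a2 L hL)
      · exact Or.inr (b2 L hL)
  | rot T hT =>
    obtain ⟨A, a1, a2⟩ := hT h
    refine ⟨.rot A, ?_, fun L hL => a2 L hL⟩
    simp only [Alt.word, Tree.word, a1]

/-- THE THEOREM, for the bracket. -/
theorem fin_unit (D : List Slice) (hD : Helper2.Ok D 0 0) (T : Tree)
    (hl : ∀ w, T.Leaf w → ∃ L : Lf, L.word = w) (hT : Iso 0 (forget D) (NW T.word))
    (hf : IsU (bracket D)) : Iso 0 (forget D) O1 ∨ ∃ w, T.Leaf w ∧ BadLeaf w := by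
  obtain ⟨A, hA, hA2⟩ := exAlt T hl
  rw [← hA] at hT
  obtain ⟨u, _, h1⟩ := br_diag D A hD hT
  rw [h1] at hf
  rcases Alt.main A (isU_right hf) with h2 | ⟨L, h2, R, hR, h3, h4⟩
  · exact Or.inl (hT.trans h2)
  · exact Or.inr ⟨L.word, hA2 L h2, badLeaf_of hR h3 h4⟩

/-- THE THEOREM, for the f-polynomial. -/
theorem fin (D : List Slice) (hD : IsDiagram D) (T : Tree)
    (hl : ∀ w, T.Leaf w → ∃ L : Lf, L.word = w) (hT : Iso 0 (forget D) (NW T.word))
    (hf : fPoly D = 1) : Iso 0 (forget D) O1 ∨ ∃ w, T.Leaf w ∧ BadLeaf w := by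
  refine fin_unit D (ok_of_dirs D [] [] hD) T hl hT ?_
  have h2 : IsU (((-1 : LP)) ^ (writhe D).natAbs * LaurentPolynomial.T (-3 * writhe D)) := by
    rcases neg_one_pow_eq_or LP (writhe D).natAbs with h3 | h3 <;> rw [h3]
    · rw [one_mul]
      exact IsU.T _
    · rw [neg_one_mul]
      exact (IsU.T _).neg
  have h3 : (((-1 : LP)) ^ (writhe D).natAbs * LaurentPolynomial.T (-3 * writhe D)) *
      bracket D = 1 := hf
  have h4 : IsU ((((-1 : LP)) ^ (writhe D).natAbs * LaurentPolynomial.T (-3 * writhe D)) *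
      bracket D) := by
    rw [h3]
    exact IsU.one
  exact isU_right h4

end Pool.Agent.ALT
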