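import Mathlib
import Pool.Agent.ALT.Ind.Close

/-!
# ALT, induction block: the sign of `E` for combinations with leaves

If `E = 0` and there is a leaf, then the complement of some leaf has `Om = -1`.
-/

set_option autoImplicit false

namespace Pool.Agent.ALT

open Pool.Agent.ARB LaurentPolynomial Pool.Agent.Helper2

namespace Alt

/-- there is a leaf -/
def HasLeaf : Alt → Prop
  | .zero => False
  | .cross _ => False
  | .leaf _ => True
  | .sum S T => S.HasLeaf ∨ T.HasLeaf
  | .rot T => T.HasLeaf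

/-- the part of `Om + 1` that comes from the leaves -/
def v : Alt → ℚ
  | .zero => 0
  | .cross _ => 0
  | .leaf L => L.J.Om + 1
  | .sum S T => S.v * (T.nt.x.2 : ℚ) ^ 2 + T.v * (S.nt.x.2 : ℚ) ^ 2
  | .rot T => T.v

/-- `L` is a leaf of the first tangle, `f X` is the complement of the leaf in the closure of the sum
with `X`, and `s` is the coefficient with which the leaf contributes to the outside. -/
inductive Occ : Alt → Lf → (Alt → Alt) → ℤ → Prop
  | leaf (L : Lf) : Occ (.leaf L) L id 1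
  | sumL {A : Alt} {L : Lf} {f : Alt → Alt} {s : ℤ} (B : Alt) : Occ A L f s →
      Occ (.sum A B) L (fun X => f (.sum B X)) (s * B.nt.x.2)
  | sumR {B : Alt} {L : Lf} {f : Alt → Alt} {s : ℤ} (A : Alt) : Occ B L f s →
      Occ (.sum A B) L (fun X => f (.sum X A)) (s * A.nt.x.2)
  | rot {T : Alt} {L : Lf} {f : Alt → Alt} {s : ℤ} : Occ T L f s →
      Occ (.rot T) L (fun X => f (.rot X)) s

theorem Occ.has {T : Alt} {L : Lf} {f : Alt → Alt} {s : ℤ} (h : Occ T L f s) : Has L T := by
  induction h with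
  | leaf L => rfl
  | sumL B _ ih => exact Or.inl ih
  | sumR A _ ih => exact Or.inr ih
  | rot _ ih => exact ih

theorem modQ_sq {A B : NT} (h : NT.SS A B) : (A.x.2 : ℚ) ^ 2 = (B.x.2 : ℚ) ^ 2 := by
  rcases h with ⟨_, h⟩ | ⟨_, h⟩
  · rw [h]
  · rw [h]
    push_cast
    ring

/-- `Om` of the complement depends on `X` through the slope and `s² Om X` -/
theorem Occ.om {T : Alt} {L : Lf} {f : Alt → Alt} {s : ℤ} (h : Occ T L f s) :
    ∀ X X' : Alt, NT.SS X.nt X'.nt →
      (f X).nt.J.Om - (f X').nt.J.Om = (s : ℚ) ^ 2 * (X.nt.J.Om - X'.nt.J.Om) := by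
  induction h with
  | leaf L =>
    intro X X' _
    simp
  | sumL B _ ih =>
    intro X X' hX
    have h1 := ih (.sum B X) (.sum B X') (hX.sumR B.nt)
    have h2 := NT.om_sum B.nt X.nt
    have h3 := NT.om_sum B.nt X'.nt
    have h4 := modQ_sq hX
    have e1 : (Alt.sum B X).nt = B.nt.sum X.nt := rfl
    have e2 : (Alt.sum B X').nt = B.nt.sum X'.nt := rfl
    rw [h1, e1, e2]
    have h5 : (B.nt.sum X.nt).J.Om - (B.nt.sum X'.nt).J.Om =
        (X.nt.J.Om - X'.nt.J.Om) * (B.nt.x.2 : ℚ) ^ 2 := by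
      rw [h4] at h2
      linear_combination h2 - h3
    rw [h5]
    push_cast
    ring
  | sumR A _ ih =>
    intro X X' hX
    have h1 := ih (.sum X A) (.sum X' A) (hX.sumL A.nt)
    have h2 := NT.om_sum X.nt A.nt
    have h3 := NT.om_sum X'.nt A.nt
    have h4 := modQ_sq hX
    have e1 : (Alt.sum X A).nt = X.nt.sum A.nt := rfl
    have e2 : (Alt.sum X' A).nt = X'.nt.sum A.nt := rfl
    rw [h1, e1, e2]
    have h5 : (X.nt.sum A.nt).J.Om - (X'.nt.sum A.nt).J.Om =
        (X.nt.J.Om - X'.nt.J.Om) * (A.nt.x.2 : ℚ) ^ 2 := by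
      rw [h4] at h2
      linear_combination h2 - h3
    rw [h5]
    push_cast
    ring
  | rot _ ih =>
    intro X X' hX
    have h1 := ih (.rot X) (.rot X') hX.rot
    rw [h1]
    have e1 : (Alt.rot X).nt.J.Om = X.nt.J.Om := Jet.Om_rot _
    have e2 : (Alt.rot X').nt.J.Om = X'.nt.J.Om := Jet.Om_rot _
    rw [e1, e2]

/-- the closure, seen from the leaf -/
theorem Occ.iso {T : Alt} {L : Lf} {f : Alt → Alt} {s : ℤ} (h : Occ T L f s) :
    ∀ X : Alt, Iso 0 (NW (T.word ++ X.word)) (NW (L.word ++ (f X).word)) := by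
  induction h with
  | leaf L => exact fun X => Iso.refl _ _
  | @sumL A L f s B _ ih =>
    intro X
    have h1 := ih (.sum B X)
    have e : (Alt.sum A B).word ++ X.word = A.word ++ (Alt.sum B X).word := by
      simp only [word, List.append_assoc]
    rw [e]
    exact h1
  | @sumR B L f s A _ ih =>
    intro X
    have h1 := ih (.sum X A)
    have e : (Alt.sum A B).word ++ X.word = A.word ++ (B.word ++ X.word) := by
      simp only [word, List.append_assoc]
    have h2 := top.t1 A.word (B.word ++ X.word) (okA A) ((okA B).append (okA X))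
    have e2 : (B.word ++ X.word) ++ A.word = B.word ++ (Alt.sum X A).word := by
      simp only [word, List.append_assoc]
    rw [e2] at h2
    rw [e]
    exact h2.trans h1
  | @rot T L f s _ ih =>
    intro X
    exact (top.t2 T.word X.word (okA T) (okA X)).trans (ih (.rot X))

/-- the determinant, seen from the leaf -/
theorem Occ.d1 {T : Alt} {L : Lf} {f : Alt → Alt} {s : ℤ} (h : Occ T L f s) :
    ∀ X : Alt, NT.D1 T.nt X.nt → NT.D1 (Alt.leaf L).nt (f X).nt := by
  induction h with
  | leaf L => exact fun X h => h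
  | @sumL A L f s B _ ih =>
    intro X hX
    exact ih (.sum B X) (NT.D1.assoc hX)
  | @sumR B L f s A _ ih =>
    intro X hX
    refine ih (.sum X A) ?_
    have h1 : NT.D1 A.nt (B.nt.sum X.nt) := NT.D1.assoc hX
    exact NT.D1.assoc h1.comm
  | @rot T L f s _ ih =>
    intro X hX
    exact ih (.rot X) (NT.D1.rot hX)

/-! ### sizes -/

/-- `Om + 1` is `0` or at least `24` -/
theorem modQ_om23 {A B : NT} (h : NT.Cop (A.sum B)) (hA : A.J.Om = -1 ∨ 23 ≤ A.J.Om)
    (hB : B.J.Om = -1 ∨ 23 ≤ B.J.Om) : (A.sum B).J.Om = -1 ∨ 23 ≤ (A.sum B).J.Om := by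
  by_cases h0 : A.x.2 = 0
  · rw [(NT.om_zero h h0).2]
    exact hA
  by_cases h1 : B.x.2 = 0
  · rw [NT.sum_comm] at h ⊢
    rw [(NT.om_zero h h1).2]
    exact hB
  have hO := NT.om_sum A B
  have a1 := NT.sq_ge h0
  have b1 := NT.sq_ge h1
  have p3 : 0 ≤ ((A.x.2 : ℚ) ^ 2 - 1) * ((B.x.2 : ℚ) ^ 2 - 1) :=
    mul_nonneg (by linarith) (by linarith)
  have gA : -1 ≤ A.J.Om := by rcases hA with hA | hA <;> linarith
  have gB : -1 ≤ B.J.Om := by rcases hB with hB | hB <;> linarith
  have p1 : A.J.Om + 1 ≤ (A.J.Om + 1) * (B.x.2 : ℚ) ^ 2 := by nlinarith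
  have p2 : B.J.Om + 1 ≤ (B.J.Om + 1) * (A.x.2 : ℚ) ^ 2 := by nlinarith
  rcases hA with hA | hA
  · rcases hB with hB | hB
    · rw [hA, hB] at hO
      by_cases q1 : A.x.2.natAbs = 1
      · left
        rw [NT.sq_one q1] at hO
        linarith
      by_cases q2 : B.x.2.natAbs = 1
      · left
        rw [NT.sq_one q2] at hO
        linarith
      right
      have hc := h.sum.2.2
      have hne : A.x.2.natAbs ≠ B.x.2.natAbs := by
        intro he
        have hc' : Nat.Coprime A.x.2.natAbs B.x.2.natAbs := Int.isCoprime_iff_gcd_eq_one.mp hc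
        rw [he, Nat.coprime_self] at hc'
        exact q2 hc'
      have n1 : A.x.2.natAbs ≠ 0 := Int.natAbs_ne_zero.mpr h0
      have n2 : B.x.2.natAbs ≠ 0 := Int.natAbs_ne_zero.mpr h1
      have sqn : ∀ (z : ℤ) (m : ℕ), m ≤ z.natAbs → ((m : ℚ)) ^ 2 ≤ (z : ℚ) ^ 2 := by
        intro z m hm
        have e1 : ((z.natAbs : ℕ) : ℚ) ^ 2 = (z : ℚ) ^ 2 := by
          rw [Nat.cast_natAbs, Int.cast_abs, sq_abs]
        rw [← e1]
        have : (m : ℚ) ≤ (z.natAbs : ℚ) := by exact_mod_cast hm
        exact pow_le_pow_left₀ (by positivity) this 2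
      rcases lt_or_gt_of_ne hne with hl | hl
      · have c1 := sqn A.x.2 2 (by omega)
        have c2 := sqn B.x.2 3 (by omega)
        push_cast at c1 c2
        nlinarith
      · have c1 := sqn A.x.2 3 (by omega)
        have c2 := sqn B.x.2 2 (by omega)
        push_cast at c1 c2
        nlinarith
    · right
      linarith
  · right
    linarith

theorem om23 (T : Alt) (h : NT.Cop T.nt) : T.nt.J.Om = -1 ∨ 23 ≤ T.nt.J.Om := by
  induction T with
  | zero => exact Or.inl (NT.om_of Rat.zero)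
  | cross p =>
    left
    have h1 : (NT.of (.cross p)).J.Om = -1 := by
      show (Jet.cross p).Om = -1
      cases p <;> simp [Jet.Om, Jet.cross]
    exact h1
  | leaf L =>
    right
    have h1 : 47 ≤ L.J.Om := L.om h
    show 23 ≤ L.J.Om
    linarith
  | sum A B ihA ihB =>
    have h' : NT.Cop (A.nt.sum B.nt) := h
    exact modQ_om23 h' (ihA h'.sum.1) (ihB h'.sum.2.1)
  | rot T ih =>
    have h1 : (Alt.rot T).nt.J.Om = T.nt.J.Om := Jet.Om_rot _
    rw [h1]
    exact ih (NT.Cop.rot h)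

theorem v_le (T : Alt) (h : NT.Cop T.nt) : 0 ≤ T.v ∧ T.v ≤ T.nt.J.Om + 1 ∧
    (T.v = 0 ∨ 48 ≤ T.v) := by
  induction T with
  | zero =>
    have h1 := NT.om_of Rat.zero
    have h2 : (Alt.zero).nt.J.Om = -1 := h1
    refine ⟨le_refl _, ?_, Or.inl rfl⟩
    rw [h2]
    simp [v]
  | cross p =>
    have h1 := om23 (.cross p) h
    refine ⟨le_refl _, ?_, Or.inl rfl⟩
    show (0 : ℚ) ≤ _
    rcases h1 with h1 | h1 <;> linarith
  | leaf L =>
    have h1 : 47 ≤ L.J.Om := L.om h
    refine ⟨?_, le_refl _, Or.inr ?_⟩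
    · show 0 ≤ L.J.Om + 1
      linarith
    · show 48 ≤ L.J.Om + 1
      linarith
  | rot T ih =>
    have h1 : (Alt.rot T).nt.J.Om = T.nt.J.Om := Jet.Om_rot _
    rw [h1]
    exact ih (NT.Cop.rot h)
  | sum A B ihA ihB =>
    have h' : NT.Cop (A.nt.sum B.nt) := h
    obtain ⟨a1, a2, a3⟩ := ihA h'.sum.1
    obtain ⟨b1, b2, b3⟩ := ihB h'.sum.2.1
    have hv : (Alt.sum A B).v = A.v * (B.nt.x.2 : ℚ) ^ 2 + B.v * (A.nt.x.2 : ℚ) ^ 2 := rfl
    have hn : (Alt.sum A B).nt = A.nt.sum B.nt := rfl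
    rw [hv, hn]
    by_cases h0 : A.nt.x.2 = 0
    · obtain ⟨hq, hO⟩ := NT.om_zero h' h0
      rw [hO, NT.sq_one hq, h0]
      norm_num
      exact ⟨a1, a2, a3⟩
    by_cases h1 : B.nt.x.2 = 0
    · have h'' : NT.Cop (B.nt.sum A.nt) := by
        rw [NT.sum_comm]
        exact h'
      obtain ⟨hq, hO⟩ := NT.om_zero h'' h1
      rw [NT.sum_comm, hO, NT.sq_one hq, h1]
      norm_num
      exact ⟨b1, b2, b3⟩
    have c1 := NT.sq_ge h0
    have c2 := NT.sq_ge h1
    have hO := NT.om_sum A.nt B.nt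
    have p3 : 0 ≤ ((A.nt.x.2 : ℚ) ^ 2 - 1) * ((B.nt.x.2 : ℚ) ^ 2 - 1) :=
      mul_nonneg (by linarith) (by linarith)
    have p1 : A.v ≤ A.v * (B.nt.x.2 : ℚ) ^ 2 := by nlinarith
    have p2 : B.v ≤ B.v * (A.nt.x.2 : ℚ) ^ 2 := by nlinarith
    refine ⟨by positivity, ?_, ?_⟩
    · rw [hO]
      have q1 : A.v * (B.nt.x.2 : ℚ) ^ 2 ≤ (A.nt.J.Om + 1) * (B.nt.x.2 : ℚ) ^ 2 :=
        mul_le_mul_of_nonneg_right a2 (by positivity)
      have q2 : B.v * (A.nt.x.2 : ℚ) ^ 2 ≤ (B.nt.J.Om + 1) * (A.nt.x.2 : ℚ) ^ 2 :=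
        mul_le_mul_of_nonneg_right b2 (by positivity)
      linarith
    · rcases a3 with a3 | a3
      · rcases b3 with b3 | b3
        · left
          rw [a3, b3]
          ring
        · right
          linarith
      · right
        linarith

/-! ### the two claims -/

/-- the bound by the leaf part -/
def Q1 (T : Alt) : Prop := ∀ R : Arb, Rat R → NT.D1 T.nt (NT.of R) →
  (∀ L f s, Occ T L f s → s = 0 → (f (Alt.of R)).nt.J.Om ≠ -1) →
  (T.nt.sum (NT.of R)).J.E ≤ 12 * T.v ∧ (T.HasLeaf → (T.nt.sum (NT.of R)).J.E < 12 * T.v)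

/-- the sign -/
def Q2 (T : Alt) : Prop := ∀ R : Arb, Rat R → NT.D1 T.nt (NT.of R) →
  (∀ L f s, Occ T L f s → (f (Alt.of R)).nt.J.Om ≠ -1) →
  (T.nt.sum (NT.of R)).J.E ≤ 0 ∧ (T.HasLeaf → (T.nt.sum (NT.of R)).J.E < 0)

theorem modQ (T : Alt) : Q1 T ∧ Q2 T := by
  induction T with
  | zero =>
    have key : ∀ R : Arb, Rat R → NT.D1 (Alt.zero).nt (NT.of R) →
        ((Alt.zero).nt.sum (NT.of R)).J.E ≤ 0 := fun R hR hD => main1 three .zero R hR hD
    refine ⟨fun R hR hD _ => ⟨?_, fun h => h.elim⟩, fun R hR hD _ => ⟨key R hR hD, fun h => h.elim⟩⟩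
    have h1 := key R hR hD
    have h2 : (Alt.zero).v = 0 := rfl
    rw [h2]
    linarith
  | cross p =>
    have key : ∀ R : Arb, Rat R → NT.D1 (Alt.cross p).nt (NT.of R) →
        ((Alt.cross p).nt.sum (NT.of R)).J.E ≤ 0 := fun R hR hD => main1 three (.cross p) R hR hD
    refine ⟨fun R hR hD _ => ⟨?_, fun h => h.elim⟩, fun R hR hD _ => ⟨key R hR hD, fun h => h.elim⟩⟩
    have h1 := key R hR hD
    have h2 : (Alt.cross p).v = 0 := rfl
    rw [h2]
    linarith
  | leaf L =>
    refine ⟨fun R hR hD _ => ?_, fun R hR hD h => ?_⟩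
    · have hc : NT.Cop (Alt.leaf L).nt := hD.cop.1
      have h1 : (L.J.sum R.jet).p = (((Alt.leaf L).nt.sum (NT.of R)).x.1 : ℚ) :=
        ((Alt.leaf L).nt.sum (NT.of R)).hp
      have h2 := L.E hc R hR (by rw [h1]; exact NT.sq_one hD)
      have h3 : ((Alt.leaf L).nt.sum (NT.of R)).J.E < 12 * (Alt.leaf L).v := h2
      exact ⟨h3.le, fun _ => h3⟩
    · exfalso
      refine h L id 1 (Occ.leaf L) ?_
      show (Alt.of R).nt.J.Om = -1
      rw [of_nt]
      exact NT.om_of hR
  | rot T ih =>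
    refine ⟨fun R hR hD h => ?_, fun R hR hD h => ?_⟩
    · have h1 := ih.1 (.rot R) (Rat.rot _ hR) hD.rot (fun L f s ho hs => h L _ s ho.rot hs)
      rw [NT.of_rot] at h1
      have e : ((Alt.rot T).nt.sum (NT.of R)).J.E = (T.nt.sum (NT.of R).rot).J.E := NT.E_rot _ _
      rw [e]
      exact h1
    · have h1 := ih.2 (.rot R) (Rat.rot _ hR) hD.rot (fun L f s ho => h L _ s ho.rot)
      rw [NT.of_rot] at h1
      have e : ((Alt.rot T).nt.sum (NT.of R)).J.E = (T.nt.sum (NT.of R).rot).J.E := NT.E_rot _ _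
      rw [e]
      exact h1
  | sum A B ihA ihB =>
    -- common preparations
    have prep : ∀ R : Arb, Rat R → NT.D1 (A.nt.sum B.nt) (NT.of R) →
        ∃ Ch Ch' : Arb, ∃ E3 c c' : ℚ, Rat Ch ∧ Rat Ch' ∧ NT.D1 A.nt (NT.of Ch) ∧
          NT.D1 B.nt (NT.of Ch') ∧ E3 ≤ 0 ∧ NT.Cop A.nt ∧ NT.Cop B.nt ∧
          ((A.nt.sum B.nt).sum (NT.of R)).J.E = (A.nt.sum (NT.of Ch)).J.E +
            (B.nt.sum (NT.of Ch')).J.E + E3 - 1 / 2 * (A.nt.J.Om + 1) * c -
            1 / 2 * (B.nt.J.Om + 1) * c' ∧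
          (c = 0 ∨ 24 ≤ c) ∧ (c' = 0 ∨ 24 ≤ c') ∧
          (c = (B.nt.J.Om + 1) * ((NT.of R).x.2 : ℚ) ^ 2 +
            ((B.nt.x.2 : ℚ) ^ 2 - 1) * (((NT.of R).x.2 : ℚ) ^ 2 - 1)) ∧
          (A.nt.x.2 = 0 → (B.nt.x.2 : ℚ) ^ 2 = 1 ∧ ((NT.of R).x.2 : ℚ) ^ 2 = 1 ∧ c' = 0) ∧
          (B.nt.x.2 = 0 → (A.nt.x.2 : ℚ) ^ 2 = 1 ∧ ((NT.of R).x.2 : ℚ) ^ 2 = 1 ∧ c' = 0) ∧
          (∀ L f s, Occ A L f s → (f (.sum B (Alt.of R))).nt.J.Om =
            (f (Alt.of Ch)).nt.J.Om + (s : ℚ) ^ 2 * c) ∧
          (∀ L f s, Occ B L f s → (f (.sum (Alt.of R) A)).nt.J.Om =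
            (f (Alt.of Ch')).nt.J.Om + (s : ℚ) ^ 2 * (c' + (A.nt.J.Om + 1) *
              ((NT.of R).x.2 : ℚ) ^ 2)) := by
      intro R hR hD
      obtain ⟨A', B', Ch, Ch', D⟩ := NT.exDec A.nt B.nt R hD
      have cA := D.pC.cop.1
      have cB := D.pD.cop.1
      have cC := D.pC.cop.2
      have cD := D.pD.cop.2
      have oR := NT.om_of hR
      have oA' := NT.om_of D.rA
      have qA' : ((NT.of A').x.2 : ℚ) ^ 2 = (A.nt.x.2 : ℚ) ^ 2 := (modQ_sq D.sA).symm
      have hc := NT.om_sum B.nt (NT.of R)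
      have hc' := NT.om_sum (NT.of R) (NT.of A')
      have two : ∀ x y : ℤ, (x * y).natAbs = 1 → (x : ℚ) ^ 2 = 1 ∧ (y : ℚ) ^ 2 = 1 := by
        intro x y h
        rw [Int.natAbs_mul] at h
        exact ⟨NT.sq_one (Nat.eq_one_of_mul_eq_one_right h),
          NT.sq_one (Nat.eq_one_of_mul_eq_one_left h)⟩
      have hD' : ((A.nt.x.1 * B.nt.x.2 + A.nt.x.2 * B.nt.x.1) * (NT.of R).x.2 +
          A.nt.x.2 * B.nt.x.2 * (NT.of R).x.1).natAbs = 1 := hD
      refine ⟨Ch, Ch', (((NT.of A').sum (NT.of B')).sum (NT.of R)).J.E,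
        (B.nt.sum (NT.of R)).J.Om + 1, ((NT.of R).sum (NT.of A')).J.Om + 1, D.rC, D.rD, D.pA,
        D.pB, NT.three_le' D.rA D.rB hR D.p3, cA, cB, D.eq, ?_, ?_, ?_, ?_, ?_, ?_, ?_⟩
      · rcases modQ_om23 cC (om23 B cB) (Or.inl oR) with h | h
        · exact Or.inl (by linarith)
        · exact Or.inr (by linarith)
      · rcases modQ_om23 cD (Or.inl oR) (Or.inl oA') with h | h
        · exact Or.inl (by linarith)
        · exact Or.inr (by linarith)
      · rw [hc, oR]
        ring
      · intro h0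
        rw [h0, zero_mul, zero_mul, zero_mul, add_zero, add_zero] at hD'
        obtain ⟨h1, h2⟩ := two _ _ hD'
        have h3 : (A.nt.x.1 * B.nt.x.2).natAbs = 1 := by
          rw [Int.natAbs_mul] at hD'
          exact Nat.eq_one_of_mul_eq_one_right hD'
        refine ⟨(two _ _ h3).2, h2, ?_⟩
        rw [hc', oR, oA', h2]
        ring
      · intro h0
        rw [h0, mul_zero, mul_zero, zero_mul, zero_add, add_zero] at hD'
        obtain ⟨h1, h2⟩ := two _ _ hD'
        have h3 : (A.nt.x.2 * B.nt.x.1).natAbs = 1 := by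
          rw [Int.natAbs_mul] at hD'
          exact Nat.eq_one_of_mul_eq_one_right hD'
        refine ⟨(two _ _ h3).1, h2, ?_⟩
        rw [hc', oR, oA', h2]
        ring
      · intro L f s ho
        have h1 := ho.om (.sum B (Alt.of R)) (Alt.of Ch) (by
          show NT.SS (B.nt.sum (Alt.of R).nt) (Alt.of Ch).nt
          rw [of_nt, of_nt]
          exact D.sC)
        have e1 : (Alt.sum B (Alt.of R)).nt.J.Om = (B.nt.sum (NT.of R)).J.Om := by
          show (B.nt.sum (Alt.of R).nt).J.Om = _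
          rw [of_nt]
        have e2 : (Alt.of Ch).nt.J.Om = -1 := by
          rw [of_nt]
          exact NT.om_of D.rC
        rw [e1, e2] at h1
        linarith
      · intro L f s ho
        have h1 := ho.om (.sum (Alt.of R) A) (Alt.of Ch') (by
          show NT.SS ((Alt.of R).nt.sum A.nt) (Alt.of Ch').nt
          rw [of_nt, of_nt]
          exact (D.sA.sumR (NT.of R)).trans D.sD)
        have e1 : (Alt.sum (Alt.of R) A).nt.J.Om = ((NT.of R).sum A.nt).J.Om := by
          show ((Alt.of R).nt.sum A.nt).J.Om = _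
          rw [of_nt]
        have e2 : (Alt.of Ch').nt.J.Om = -1 := by
          rw [of_nt]
          exact NT.om_of D.rD
        rw [e1, e2] at h1
        have e3 := NT.om_sum (NT.of R) A.nt
        have e4 : ((NT.of R).sum A.nt).J.Om + 1 = ((NT.of R).sum (NT.of A')).J.Om + 1 +
            (A.nt.J.Om + 1) * ((NT.of R).x.2 : ℚ) ^ 2 := by
          rw [e3, hc', oR, oA', qA']
          ring
        have e5 : ((NT.of R).sum A.nt).J.Om = ((NT.of R).sum (NT.of A')).J.Om + 1 +
            (A.nt.J.Om + 1) * ((NT.of R).x.2 : ℚ) ^ 2 - 1 := by linarith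
        rw [e5] at h1
        linarith
    have hv : (Alt.sum A B).v = A.v * (B.nt.x.2 : ℚ) ^ 2 + B.v * (A.nt.x.2 : ℚ) ^ 2 := rfl
    have hn : (Alt.sum A B).nt = A.nt.sum B.nt := rfl
    refine ⟨fun R hR hD h => ?_, fun R hR hD h => ?_⟩
    · -- the bound by the leaf part
      obtain ⟨Ch, Ch', E3, c, c', rC, rD, dA, dB, h3, cA, cB, hE, hc, hc', hcv, hqA, hqB, fA, fB⟩ :=
        prep R hR hD
      obtain ⟨vA0, vA1, vA2⟩ := v_le A cA
      obtain ⟨vB0, vB1, vB2⟩ := v_le B cB
      have xA := ihA.1 Ch rC dA (fun L f s ho hs => by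
        have h1 := h L _ _ (ho.sumL B) (by rw [hs, zero_mul])
        have h2 := fA L f s ho
        rw [hs] at h2
        norm_num at h2
        rw [← h2]
        exact h1)
      have xB := ihB.1 Ch' rD dB (fun L f s ho hs => by
        have h1 := h L _ _ (ho.sumR A) (by rw [hs, zero_mul])
        have h2 := fB L f s ho
        rw [hs] at h2
        norm_num at h2
        rw [← h2]
        exact h1)
      rw [hn, hv, hE]
      have c0 : 0 ≤ c := by rcases hc with hc | hc <;> linarith
      have c'0 : 0 ≤ c' := by rcases hc' with hc' | hc' <;> linarith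
      have a0 : 0 ≤ A.nt.J.Om + 1 := le_trans vA0 vA1
      have b0 : 0 ≤ B.nt.J.Om + 1 := le_trans vB0 vB1
      have m1 : 0 ≤ (A.nt.J.Om + 1) * c := mul_nonneg a0 c0
      have m2 : 0 ≤ (B.nt.J.Om + 1) * c' := mul_nonneg b0 c'0
      by_cases qA : A.nt.x.2 = 0
      · obtain ⟨e1, e2, e3⟩ := hqA qA
        have e4 : c = B.nt.J.Om + 1 := by
          rw [hcv, e1, e2]
          ring
        rw [e1, qA, e3, e4]
        norm_num
        rcases om23 A cA with oA | oA
        · -- `A` is light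
          have w0 : A.v = 0 := le_antisymm (by rw [oA] at vA1; linarith) vA0
          have yB := ihB.2 Ch' rD dB (fun L f s ho => by
            have h1 := h L _ _ (ho.sumR A) (by rw [qA, mul_zero])
            have h2 := fB L f s ho
            rw [e3, oA] at h2
            norm_num at h2
            rw [← h2]
            exact h1)
          rw [w0] at xA ⊢
          rw [oA]
          refine ⟨by linarith [xA.1, yB.1], fun hl => ?_⟩
          rcases hl with hl | hl
          · linarith [xA.2 hl, yB.1]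
          · linarith [xA.1, yB.2 hl]
        · have m3 : 24 * (B.nt.J.Om + 1) ≤ (A.nt.J.Om + 1) * (B.nt.J.Om + 1) :=
            mul_le_mul_of_nonneg_right (by linarith) b0
          refine ⟨by linarith [xA.1, xB.1], fun hl => ?_⟩
          rcases hl with hl | hl
          · linarith [xA.2 hl, xB.1]
          · linarith [xA.1, xB.2 hl]
      by_cases qB : B.nt.x.2 = 0
      · obtain ⟨e1, e2, e3⟩ := hqB qB
        have e4 : c = B.nt.J.Om + 1 := by
          rw [hcv, e2]
          ring
        rw [e1, qB, e3, e4]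
        norm_num
        rcases om23 B cB with oB | oB
        · have w0 : B.v = 0 := le_antisymm (by rw [oB] at vB1; linarith) vB0
          have yA := ihA.2 Ch rC dA (fun L f s ho => by
            have h1 := h L _ _ (ho.sumL B) (by rw [qB, mul_zero])
            have h2 := fA L f s ho
            rw [e4, oB] at h2
            norm_num at h2
            rw [← h2]
            exact h1)
          rw [w0] at xB ⊢
          rw [oB]
          refine ⟨by linarith [xB.1, yA.1], fun hl => ?_⟩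
          rcases hl with hl | hl
          · linarith [xB.1, yA.2 hl]
          · linarith [xB.2 hl, yA.1]
        · have m3 : 24 * (A.nt.J.Om + 1) ≤ (B.nt.J.Om + 1) * (A.nt.J.Om + 1) :=
            mul_le_mul_of_nonneg_right (by linarith) a0
          refine ⟨by linarith [xA.1, xB.1], fun hl => ?_⟩
          rcases hl with hl | hl
          · linarith [xA.2 hl, xB.1]
          · linarith [xA.1, xB.2 hl]
      have q1 := NT.sq_ge qA
      have q2 := NT.sq_ge qB
      have p1 : A.v ≤ A.v * (B.nt.x.2 : ℚ) ^ 2 := by nlinarith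
      have p2 : B.v ≤ B.v * (A.nt.x.2 : ℚ) ^ 2 := by nlinarith
      refine ⟨by linarith [xA.1, xB.1], fun hl => ?_⟩
      rcases hl with hl | hl
      · linarith [xA.2 hl, xB.1]
      · linarith [xA.1, xB.2 hl]
    · -- the sign
      obtain ⟨Ch, Ch', E3, c, c', rC, rD, dA, dB, h3, cA, cB, hE, hc, hc', hcv, hqA, hqB, fA, fB⟩ :=
        prep R hR hD
      obtain ⟨vA0, vA1, vA2⟩ := v_le A cA
      obtain ⟨vB0, vB1, vB2⟩ := v_le B cB
      have xA := ihA.1 Ch rC dA (fun L f s ho hs => by
        have h1 := h L _ _ (ho.sumL B)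
        have h2 := fA L f s ho
        rw [hs] at h2
        norm_num at h2
        rw [← h2]
        exact h1)
      have xB := ihB.1 Ch' rD dB (fun L f s ho hs => by
        have h1 := h L _ _ (ho.sumR A)
        have h2 := fB L f s ho
        rw [hs] at h2
        norm_num at h2
        rw [← h2]
        exact h1)
      rw [hn, hE]
      have c0 : 0 ≤ c := by rcases hc with hc | hc <;> linarith
      have c'0 : 0 ≤ c' := by rcases hc' with hc' | hc' <;> linarith
      have a0 : 0 ≤ A.nt.J.Om + 1 := le_trans vA0 vA1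
      have b0 : 0 ≤ B.nt.J.Om + 1 := le_trans vB0 vB1
      have m1 : 0 ≤ (A.nt.J.Om + 1) * c := mul_nonneg a0 c0
      have m2 : 0 ≤ (B.nt.J.Om + 1) * c' := mul_nonneg b0 c'0
      -- the first part
      have yA : (A.nt.sum (NT.of Ch)).J.E - 1 / 2 * (A.nt.J.Om + 1) * c ≤ 0 ∧
          (A.HasLeaf → (A.nt.sum (NT.of Ch)).J.E - 1 / 2 * (A.nt.J.Om + 1) * c < 0) := by
        rcases hc with hc | hc
        · have h4 := ihA.2 Ch rC dA (fun L f s ho => by
            have h1 := h L _ _ (ho.sumL B)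
            have h2 := fA L f s ho
            rw [hc, mul_zero, add_zero] at h2
            rw [← h2]
            exact h1)
          exact ⟨by linarith [h4.1], fun hl => by linarith [h4.2 hl]⟩
        · have m3 : (A.nt.J.Om + 1) * 24 ≤ (A.nt.J.Om + 1) * c :=
            mul_le_mul_of_nonneg_left hc a0
          exact ⟨by linarith [xA.1], fun hl => by linarith [xA.2 hl]⟩
      have fin : (B.nt.sum (NT.of Ch')).J.E - 1 / 2 * (B.nt.J.Om + 1) * c' ≤ 0 →
          (B.HasLeaf → (B.nt.sum (NT.of Ch')).J.E - 1 / 2 * (B.nt.J.Om + 1) * c' < 0) →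
          ((A.nt.sum (NT.of Ch)).J.E + (B.nt.sum (NT.of Ch')).J.E + E3 -
            1 / 2 * (A.nt.J.Om + 1) * c - 1 / 2 * (B.nt.J.Om + 1) * c' ≤ 0 ∧
          ((Alt.sum A B).HasLeaf → (A.nt.sum (NT.of Ch)).J.E + (B.nt.sum (NT.of Ch')).J.E + E3 -
            1 / 2 * (A.nt.J.Om + 1) * c - 1 / 2 * (B.nt.J.Om + 1) * c' < 0)) := by
        intro y1 y2
        refine ⟨by linarith [yA.1], fun hl => ?_⟩
        rcases hl with hl | hl
        · linarith [yA.2 hl]
        · linarith [yA.1, y2 hl]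
      rcases hc' with hc'' | hc''
      · by_cases hw : (A.nt.J.Om + 1) * ((NT.of R).x.2 : ℚ) ^ 2 = 0
        · have h4 := ihB.2 Ch' rD dB (fun L f s ho => by
            have h1 := h L _ _ (ho.sumR A)
            have h2 := fB L f s ho
            rw [hc'', hw, add_zero, mul_zero, add_zero] at h2
            rw [← h2]
            exact h1)
          exact fin (by linarith [h4.1]) (fun hl => by linarith [h4.2 hl])
        · -- `A` is heavy and `R` is not infinite
          have oA : 23 ≤ A.nt.J.Om := by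
            rcases om23 A cA with oA | oA
            · exfalso
              apply hw
              rw [oA]
              ring
            · exact oA
          have qR : (NT.of R).x.2 ≠ 0 := by
            intro h0
            apply hw
            rw [h0]
            norm_num
          have r1 := NT.sq_ge qR
          have hcB : B.nt.J.Om + 1 ≤ c := by
            by_cases qB : B.nt.x.2 = 0
            · obtain ⟨_, e2, _⟩ := hqB qB
              rw [hcv, e2]
              linarith
            · have q2 := NT.sq_ge qB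
              have p1 : B.nt.J.Om + 1 ≤ (B.nt.J.Om + 1) * ((NT.of R).x.2 : ℚ) ^ 2 := by nlinarith
              have p2 : 0 ≤ ((B.nt.x.2 : ℚ) ^ 2 - 1) * (((NT.of R).x.2 : ℚ) ^ 2 - 1) :=
                mul_nonneg (by linarith) (by linarith)
              rw [hcv]
              linarith
          have m3 : (A.nt.J.Om + 1) * (B.nt.J.Om + 1) ≤ (A.nt.J.Om + 1) * c :=
            mul_le_mul_of_nonneg_left hcB a0
          have m4 : 24 * (B.nt.J.Om + 1) ≤ (A.nt.J.Om + 1) * (B.nt.J.Om + 1) :=
            mul_le_mul_of_nonneg_right (by linarith) b0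
          rw [hc'']
          rcases om23 B cB with oB | oB
          · -- `B` is light
            have w0 : B.v = 0 := le_antisymm (by rw [oB] at vB1; linarith) vB0
            rw [w0] at xB
            refine ⟨by linarith [yA.1, xB.1], fun hl => ?_⟩
            rcases hl with hl | hl
            · linarith [yA.2 hl, xB.1]
            · linarith [yA.1, xB.2 hl]
          · have m5 : (A.nt.J.Om + 1) * 24 ≤ (A.nt.J.Om + 1) * (B.nt.J.Om + 1) :=
              mul_le_mul_of_nonneg_left (by linarith) a0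
            have tot : 12 * A.v + 12 * B.v ≤ 1 / 2 * ((A.nt.J.Om + 1) * c) := by
              rcases vA2 with w | w
              · rw [w]
                linarith
              · rcases vB2 with w' | w'
                · rw [w']
                  linarith
                · have m6 : A.v * B.v ≤ (A.nt.J.Om + 1) * (B.nt.J.Om + 1) :=
                    mul_le_mul vA1 vB1 vB0 a0
                  nlinarith [mul_nonneg (sub_nonneg.2 w) (sub_nonneg.2 w')]
            refine ⟨by linarith [xA.1, xB.1], fun hl => ?_⟩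
            rcases hl with hl | hl
            · linarith [xA.2 hl, xB.1]
            · linarith [xA.1, xB.2 hl]
      · have m3 : (B.nt.J.Om + 1) * 24 ≤ (B.nt.J.Om + 1) * c' :=
          mul_le_mul_of_nonneg_left hc'' b0
        exact fin (by linarith [xB.1]) (fun hl => by linarith [xB.2 hl])

/-- If the determinant is one, `E = 0` and there is a leaf, then the complement of some leaf has
`Om = -1`. -/
theorem modQ_main (T : Alt) (hl : T.HasLeaf) (hp : T.nt.x.1.natAbs = 1) (hE : T.nt.J.E = 0) :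
    ∃ (L : Lf) (C : Alt), Has L T ∧ Iso 0 (NW T.word) (NW (L.word ++ C.word)) ∧
      NT.Cop C.nt ∧ C.nt.J.Om = -1 := by
  have hs : T.nt.sum (NT.of .zero) = T.nt := by
    refine NT.ext' ?_ (Jet.sum_zero _)
    simp only [NT.sum, NT.of, Arb.pq]
    ext <;> simp
  have hD : NT.D1 T.nt (NT.of .zero) := by
    unfold NT.D1
    rw [hs]
    exact hp
  by_contra hcon
  have h1 := (modQ T).2 .zero Rat.zero hD (fun L f s ho h0 => by
    apply hcon
    refine ⟨L, f (Alt.of .zero), ho.has, ?_, ?_, h0⟩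
    · have h2 := ho.iso (Alt.of .zero)
      have e : (Alt.of Arb.zero).word = [] := rfl
      rw [e, List.append_nil] at h2
      exact h2
    · have h2 := ho.d1 (Alt.of .zero) (by rw [of_nt]; exact hD)
      exact h2.cop.2)
  have h2 := h1.2 hl
  rw [hs, hE] at h2
  exact lt_irrefl _ h2

end Alt

end Pool.Agent.ALT
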