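import Mathlib
import Pool.Agent.ALT.Ind.ModQ

/-!
# ALT, induction block: brackets which are units modulo `(A ^ 4 + 1) ^ 3`
-/

set_option autoImplicit false

namespace Pool.Agent.ALT

open Pool.Agent.ARB LaurentPolynomial PowerSeries

/-- equality of the 2-jets of the bracket and of `± A ^ n` -/
theorem PJ.unit_coeff {x : LaurentPolynomial ℤ × LaurentPolynomial ℤ} {J : Jet} (hx : PJ x J)
    (P : EvPt) (e : ℤ) (he : e = 1 ∨ e = -1) (n : ℤ)
    (c0 : coeff 0 (P.ev (x.1 + Pool.Agent.Helper2.loopVal * x.2)) =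
      coeff 0 (P.ev (LaurentPolynomial.C e * T n)))
    (c1 : coeff 1 (P.ev (x.1 + Pool.Agent.Helper2.loopVal * x.2)) =
      coeff 1 (P.ev (LaurentPolynomial.C e * T n)))
    (c2 : coeff 2 (P.ev (x.1 + Pool.Agent.Helper2.loopVal * x.2)) =
      coeff 2 (P.ev (LaurentPolynomial.C e * T n))) :
    (J.p = 1 ∨ J.p = -1) ∧ J.E = 0 := by
  obtain ⟨k, g0, g1, g2, b0, b1, b2, hk, hg0, hg1, hg2, hb0, hb1, hb2, hp, hq, hw, hG, hF,
    hH⟩ := hx P
  obtain ⟨h8, hh⟩ := zpow_jet P n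
  have hI := Complex.I_sq
  have hk0 : k ≠ 0 := by
    rintro rfl
    norm_num at hk
  have hC : P.ev (LaurentPolynomial.C e) = ((e : ℤ) : PowerSeries ℂ) := by
    simp [EvPt.ev]
  rw [map_add, map_mul, map_mul, P.ev_T, hC] at c0 c1 c2
  set m := ((P.a ^ n : (PowerSeries ℂ)ˣ) : PowerSeries ℂ) with hm
  have hee : ((e : ℤ) : ℂ) ^ 2 = 1 := by
    rcases he with h | h <;> rw [h] <;> norm_num
  have hce : ∀ i : ℕ, coeff i (((e : ℤ) : PowerSeries ℂ) * m) = (e : ℂ) * coeff i m := by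
    intro i
    have : ((e : ℤ) : PowerSeries ℂ) = PowerSeries.C (e : ℂ) := by simp
    rw [this, PowerSeries.coeff_C_mul]
  rw [map_add, bc0, P.l0, hg0, hb0, hce] at c0
  rw [map_add, bc1, P.l0, P.l1, hg1, hb0, hb1, hce] at c1
  rw [map_add, bc2, P.l0, P.l1, P.l2, hg2, hb0, hb1, hb2, hce] at c2
  constructor
  · have h1 : g0 ^ 8 = 1 := by
      have : (-Complex.I * k * g0 + 0 * (k * b0)) ^ 8 = (((e : ℤ) : ℂ) * coeff 0 m) ^ 8 := by
        rw [c0]
      have e8 : ((e : ℤ) : ℂ) ^ 8 = 1 := by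
        have : ((e : ℤ) : ℂ) ^ 8 = (((e : ℤ) : ℂ) ^ 2) ^ 4 := by ring
        rw [this, hee]; norm_num
      have i8 : Complex.I ^ 8 = 1 := by
        have : Complex.I ^ 8 = (Complex.I ^ 2) ^ 4 := by ring
        rw [this, hI]; norm_num
      have t1 : (-Complex.I * k * g0 + 0 * (k * b0)) ^ 8 = Complex.I ^ 8 * k ^ 8 * g0 ^ 8 := by
        ring
      rw [t1, i8, hk, mul_pow, e8, h8] at this
      simpa using this
    rw [← hp] at h1
    have h2 : J.p ^ 8 = 1 := by exact_mod_cast h1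
    have h3 : J.p ^ 2 = 1 := by
      have : (J.p ^ 2) ^ 4 = 1 := by rw [← pow_mul]; exact h2
      exact (pow_eq_one_iff_of_nonneg (sq_nonneg _) (by norm_num)).1 this
    have h4 : (J.p - 1) * (J.p + 1) = 0 := by linear_combination h3
    rcases mul_eq_zero.1 h4 with h | h
    · left; linear_combination h
    · right; linear_combination h
  · have key : k ^ 2 * (2 * (g1 * b0 - g0 * b1) - b0 ^ 2 + (2 * g0 * g2 - g1 ^ 2)) = 0 := by
      linear_combination (-2 * ((-Complex.I * k * g2 + Complex.I * k * b1))) * c0 +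
        ((-Complex.I * k * g1 + Complex.I * k * b0) + e * coeff 1 m) * c1 -
        2 * e * coeff 0 m * c2 - (e : ℂ) ^ 2 * hh +
        k ^ 2 * (2 * (g1 * b0 - g0 * b1) - b0 ^ 2 + (2 * g0 * g2 - g1 ^ 2)) * hI
    have : ((J.E : ℚ) : ℂ) = 0 := by
      rw [Jet.E]
      push_cast
      rw [hw, hq, hG]
      have hk2 : k ^ 2 ≠ 0 := pow_ne_zero 2 hk0
      rcases mul_eq_zero.1 key with h | h
      · exact absurd h hk2
      · linear_combination h
    exact_mod_cast this

/-- If the bracket of the numerator closure is a unit modulo `(A ^ 4 + 1) ^ 3` then `p = ± 1` and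
`E = 0`. -/
theorem PJ.unit_dvd {x : LaurentPolynomial ℤ × LaurentPolynomial ℤ} {J : Jet} (hx : PJ x J)
    (u : LaurentPolynomial ℤ) (hu : IsU u)
    (h : (T 4 + 1 : LaurentPolynomial ℤ) ^ 3 ∣ x.1 + Pool.Agent.Helper2.loopVal * x.2 - u) :
    (J.p = 1 ∨ J.p = -1) ∧ J.E = 0 := by
  obtain ⟨P⟩ := exEvPt
  obtain ⟨r, hr⟩ := h
  obtain ⟨g, hg⟩ := P.ev_fac
  have e0 : P.ev (x.1 + Pool.Agent.Helper2.loopVal * x.2) =
      P.ev u + PowerSeries.X ^ 3 * (g ^ 3 * P.ev r) := by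
    have : x.1 + Pool.Agent.Helper2.loopVal * x.2 = u + (T 4 + 1) ^ 3 * r := by
      rw [← hr]; ring
    rw [this, map_add, map_mul, map_pow, hg]
    ring
  have hc : ∀ i : ℕ, i < 3 → coeff i (P.ev (x.1 + Pool.Agent.Helper2.loopVal * x.2)) =
      coeff i (P.ev u) := by
    intro i hi
    rw [e0, map_add, PowerSeries.coeff_X_pow_mul', if_neg (by omega), add_zero]
  obtain ⟨k, hk | hk⟩ := hu
  · have hu' : u = LaurentPolynomial.C 1 * T k := by rw [hk]; simp
    rw [hu'] at hc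
    exact hx.unit_coeff P 1 (Or.inl rfl) k (hc 0 (by norm_num)) (hc 1 (by norm_num))
      (hc 2 (by norm_num))
  · have hu' : u = LaurentPolynomial.C (-1) * T k := by rw [hk]; simp
    rw [hu'] at hc
    exact hx.unit_coeff P (-1) (Or.inr rfl) k (hc 0 (by norm_num)) (hc 1 (by norm_num))
      (hc 2 (by norm_num))

namespace Alt

/-- a combination without leaves is arborescent -/
theorem noLeaf (T : Alt) (h : ¬ T.HasLeaf) : ∃ R : Arb, of R = T := by
  induction T with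
  | zero => exact ⟨.zero, rfl⟩
  | cross p => exact ⟨.cross p, rfl⟩
  | leaf L => exact absurd trivial h
  | sum A B ihA ihB =>
    obtain ⟨R, hR⟩ := ihA (fun h' => h (Or.inl h'))
    obtain ⟨S, hS⟩ := ihB (fun h' => h (Or.inr h'))
    exact ⟨.sum R S, by simp only [of, hR, hS]⟩
  | rot T ih =>
    obtain ⟨R, hR⟩ := ih h
    exact ⟨.rot R, by simp only [of, hR]⟩

/-- The mod `(A ^ 4 + 1) ^ 3` form: the closure is trivial, or it is the closure of a leaf and a
combination with `Om = -1`. -/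
theorem main_mod (T : Alt) (u : LaurentPolynomial ℤ) (hu : IsU u)
    (h : (LaurentPolynomial.T 4 + 1 : LaurentPolynomial ℤ) ^ 3 ∣ brN T - u) :
    Un T ∨ ∃ (L : Lf) (C : Alt), Has L T ∧ Iso 0 (NW T.word) (NW (L.word ++ C.word)) ∧
      NT.Cop C.nt ∧ C.nt.J.Om = -1 := by
  by_cases hl : T.HasLeaf
  · right
    obtain ⟨h1, h2⟩ := (pj T).unit_dvd u hu h
    refine modQ_main T hl ?_ h2
    rw [T.nt.hp] at h1
    rcases h1 with h1 | h1
    · have h3 : T.nt.x.1 = 1 := by exact_mod_cast h1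
      rw [h3]
      rfl
    · have h3 : T.nt.x.1 = -1 := by exact_mod_cast h1
      rw [h3]
      rfl
  · left
    obtain ⟨R, rfl⟩ := noLeaf T hl
    unfold brN at h
    rw [of_pair] at h
    have h1 := alg_dvd top R u hu h
    unfold Un
    rw [of_word]
    exact h1

end Alt

end Pool.Agent.ALT
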